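import Pool.Agent.Lib.MP_921642_ag.Numeric

/-!
Products of simplices: special points which are cut out by quadrics.
-/

set_option autoImplicit false

namespace Pool.Agent.Lib.MP_921642_ag

open MvPolynomial

variable {n r : ℕ} (blk : Fin n → Fin r)

/-- A choice of at most one element in each block. -/
abbrev Choice : Type := ∀ b : Fin r, Option {v : Fin n // blk v = b}

open Classical in
/-- The point of a choice. -/
noncomputable def pt (c : Choice blk) : Fin (n + 1) → ℂ :=
  Fin.cons 1 (fun v => if c (blk v) = some ⟨v, rfl⟩ then 1 else 0)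

/-- Barycentric coordinates. -/
noncomputable def z (b : Fin r) : Option {v : Fin n // blk v = b} → MvPolynomial (Fin (n + 1)) ℂ
  | none => X 0 - ∑ v : {v : Fin n // blk v = b}, X (Fin.succ v.1)
  | some v => X (Fin.succ v.1)

@[simp] lemma pt_zero (c : Choice blk) : pt blk c 0 = 1 := by simp [pt]

open Classical in
lemma pt_succ (c : Choice blk) (v : Fin n) :
    pt blk c v.succ = if c (blk v) = some ⟨v, rfl⟩ then 1 else 0 := by simp [pt]

open Classical in
lemma pt_succ' (c : Choice blk) (b : Fin r) (v : {v : Fin n // blk v = b}) :
    pt blk c v.1.succ = if c b = some v then 1 else 0 := by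
  obtain ⟨v, rfl⟩ := v
  rw [pt_succ]

open Classical in
lemma eval_z (c : Choice blk) (b : Fin r) (o : Option {v : Fin n // blk v = b}) :
    eval (pt blk c) (z blk b o) = if c b = o then 1 else 0 := by
  cases o with
  | some v => simp only [z, eval_X]; exact pt_succ' blk c b v
  | none =>
    simp only [z, map_sub, map_sum, eval_X, pt_zero, pt_succ']
    cases h : c b with
    | none => simp
    | some w => simp

lemma z_mem (b : Fin r) (o : Option {v : Fin n // blk v = b}) : z blk b o ∈ V (Fin (n + 1)) 1 := by
  cases o with
  | some v => exact (mem_homogeneousSubmodule _ _).2 (isHomogeneous_X _ _)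
  | none =>
    exact Submodule.sub_mem _ ((mem_homogeneousSubmodule _ _).2 (isHomogeneous_X _ _))
      (Submodule.sum_mem _ (fun v _ => (mem_homogeneousSubmodule _ _).2 (isHomogeneous_X _ _)))

lemma D_linear {σ : Type} [Fintype σ] (p : σ → ℂ) {f : MvPolynomial σ ℂ} (hf : f ∈ V σ 1) :
    D p f = C (eval p f) := by
  have := Dl_pow_eq_eval p 1 hf
  simpa using this

open Classical in
/-- The quadrics. -/
noncomputable def th (c : Choice blk) : Fin (n + 1) → MvPolynomial (Fin (n + 1)) ℂ :=
  Fin.cons 0 (fun v => if c (blk v) = some ⟨v, rfl⟩ then -(X v.succ * (X 0 - X v.succ))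
    else X v.succ * z blk (blk v) (c (blk v)))

@[simp] lemma th_zero (c : Choice blk) : th blk c 0 = 0 := by simp [th]

open Classical in
lemma th_succ (c : Choice blk) (v : Fin n) : th blk c v.succ =
    if c (blk v) = some ⟨v, rfl⟩ then -(X v.succ * (X 0 - X v.succ))
    else X v.succ * z blk (blk v) (c (blk v)) := by simp [th]

/-- The quadratic data attached to a partition of the coordinates into blocks. -/
noncomputable def blockData : QuadData (Fin (n + 1)) (Choice blk) r where
  P := pt blk
  x := X 0
  E := fun c => ∏ b : Fin r, z blk b (c b)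
  θ := th blk
  hx := (mem_homogeneousSubmodule _ _).2 (isHomogeneous_X _ _)
  hx1 := by intro c; simp
  hE := by
    intro c
    have h := IsHomogeneous.prod (Finset.univ : Finset (Fin r)) (fun b => z blk b (c b)) (fun _ => 1)
      (fun b _ => (mem_homogeneousSubmodule _ _).1 (z_mem blk b (c b)))
    simpa using h
  hE0 := by
    classical
    intro c c' hcc
    obtain ⟨b, hb⟩ := Function.ne_iff.mp hcc
    rw [map_prod]
    apply Finset.prod_eq_zero (Finset.mem_univ b)
    rw [eval_z, if_neg hb]
  hE1 := by
    classical
    intro c
    rw [map_prod]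
    apply Finset.prod_eq_one
    intro b _
    rw [eval_z, if_pos rfl]
  hθ := by
    intro c v
    refine Fin.cases ?_ (fun v => ?_) v
    · simp
    · rw [th_succ]
      have h1 : (X v.succ : MvPolynomial (Fin (n + 1)) ℂ).IsHomogeneous 1 := isHomogeneous_X _ _
      have h0 : (X 0 : MvPolynomial (Fin (n + 1)) ℂ).IsHomogeneous 1 := isHomogeneous_X _ _
      split_ifs with h
      · exact Submodule.neg_mem _ ((mem_homogeneousSubmodule _ _).2 (h1.mul (h0.sub h1)))
      · exact (mem_homogeneousSubmodule _ _).2
          (h1.mul ((mem_homogeneousSubmodule _ _).1 (z_mem blk _ _)))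
  hθ0 := by
    intro c c' v
    refine Fin.cases ?_ (fun v => ?_) v
    · simp
    · rw [th_succ]
      split_ifs with h
      · simp only [map_neg, map_mul, map_sub, eval_X, pt_zero, pt_succ]
        split_ifs <;> simp
      · rw [map_mul, eval_X, eval_z, pt_succ]
        split_ifs with h1 h2
        · exact absurd (h2 ▸ h1) h
        · simp
        · simp
        · simp
  hθ1 := by
    intro c v
    refine Fin.cases ?_ (fun v => ?_) v
    · simp
    · rw [th_succ, pt_succ]
      split_ifs with h
      · simp only [map_neg, Derivation.leibniz, map_sub, D_X, pt_zero, pt_succ, if_pos h]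
        simp
      · rw [Derivation.leibniz, D_X, D_linear _ (z_mem blk _ _), eval_z, pt_succ, if_neg h,
          if_pos rfl]
        simp

lemma card_choice : Fintype.card (Choice blk) =
    ∏ b : Fin r, ((Finset.univ.filter (fun v => blk v = b)).card + 1) := by
  rw [Fintype.card_pi]
  refine Finset.prod_congr rfl (fun b _ => ?_)
  rw [Fintype.card_option, Fintype.card_subtype]

end Pool.Agent.Lib.MP_921642_ag
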