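import Mathlib

/-!
# Linear systems with assigned multiple points and their linear expected dimension

The definitions of the problem file.
-/

set_option autoImplicit false

namespace Pool.Agent.Lib.MP_921642_ag

open MvPolynomial

/-- `f` vanishes to order at least `m` at the (representative `p` of a) point: the Taylor
expansion `f (p + X)` has no term of degree less than `m`. -/
def VanishesToOrder {n : ℕ} (p : Fin (n + 1) → ℂ) (m : ℕ) (f : MvPolynomial (Fin (n + 1)) ℂ) :
    Prop :=
  ∀ β : Fin (n + 1) →₀ ℕ, β.degree < m → coeff β (aeval (fun i => X i + C (p i)) f) = 0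

/-- The vector space `L_{n,d}(m_1, ..., m_s)` of all forms of degree `d` in `n + 1` variables which
vanish to order at least `m i` at `p i` for every `i`. -/
noncomputable def linSys (n d s : ℕ) (m : Fin s → ℕ) (p : Fin s → Fin (n + 1) → ℂ) :
    Submodule ℂ (MvPolynomial (Fin (n + 1)) ℂ) where
  carrier := {f | f.IsHomogeneous d ∧ ∀ i, VanishesToOrder (p i) (m i) f}
  add_mem' := by
    rintro f g ⟨hf, hf'⟩ ⟨hg, hg'⟩
    refine ⟨hf.add hg, fun i β hβ => ?_⟩
    rw [map_add, coeff_add, hf' i β hβ, hg' i β hβ, add_zero]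
  zero_mem' := by
    refine ⟨isHomogeneous_zero _ _ _, fun i β _ => ?_⟩
    rw [map_zero, coeff_zero]
  smul_mem' := by
    rintro c f ⟨hf, hf'⟩
    refine ⟨(homogeneousSubmodule _ _ d).smul_mem c hf, fun i β hβ => ?_⟩
    rw [map_smul, coeff_smul, hf' i β hβ, smul_zero]

/-- `k_I = max (∑_{i ∈ I} m_i - r d, 0)` with `|I| = r + 1`, and `k_∅ = d`. -/
def kI {s : ℕ} (d : ℕ) (m : Fin s → ℕ) (I : Finset (Fin s)) : ℕ :=
  if I = ∅ then d else (∑ i ∈ I, m i) - (I.card - 1) * d

/-- The linear virtual dimension: the sum over all `I` with `|I| = r + 1`,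
`-1 ≤ r ≤ min (n, s) - 1`, of `(-1)^(r+1) * choose (n + k_I - r - 1) n`. -/
def lvdim (n d s : ℕ) (m : Fin s → ℕ) : ℤ :=
  ∑ I ∈ (Finset.univ : Finset (Fin s)).powerset.filter (fun I => I.card ≤ min n s),
    (-1) ^ I.card * ((n + kI d m I - I.card).choose n : ℤ)

open Classical in
/-- The linear expected dimension. -/
noncomputable def ldim (n d s : ℕ) (m : Fin s → ℕ) : ℤ :=
  if ∃ m' : Fin s → ℕ, (∀ i, m' i ≤ m i) ∧ lvdim n d s m' < 0 then 0 else max (lvdim n d s m) 0

end Pool.Agent.Lib.MP_921642_ag
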