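import Mathlib

section
/-!
Auxiliary linear algebra for homogeneous polynomials and directional derivatives.
-/
set_option autoImplicit false

namespace Pool.Agent.Lib.MP_921642_ag

open MvPolynomial

variable {σ : Type} [Fintype σ]

/-- The space of forms of degree `e`. -/
noncomputable abbrev V (σ : Type) (e : ℕ) : Submodule ℂ (MvPolynomial σ ℂ) :=
  homogeneousSubmodule σ ℂ e

/-- Derivative in the direction `p`. -/
noncomputable def D (p : σ → ℂ) : Derivation ℂ (MvPolynomial σ ℂ) (MvPolynomial σ ℂ) :=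
  mkDerivation ℂ (fun i => C (p i))

omit [Fintype σ] in
@[simp] lemma D_X (p : σ → ℂ) (i : σ) : D p (X i) = C (p i) := by
  simp [D]

omit [Fintype σ] in
@[simp] lemma D_C (p : σ → ℂ) (c : ℂ) : D p (C c) = 0 := derivation_C _ _

/-- `D p` as an endomorphism. -/
noncomputable def Dl (p : σ → ℂ) : Module.End ℂ (MvPolynomial σ ℂ) := (D p).toLinearMap

omit [Fintype σ] in
@[simp] lemma Dl_apply (p : σ → ℂ) (f : MvPolynomial σ ℂ) : Dl p f = D p f := rfl

lemma D_eq_sum (p : σ → ℂ) (f : MvPolynomial σ ℂ) :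
    D p f = ∑ i, C (p i) * pderiv i f := by
  classical
  have hs : ∀ (s : Finset σ) (g : MvPolynomial σ ℂ),
      (∑ i ∈ s, (C (p i) : MvPolynomial σ ℂ) • pderiv i : Derivation ℂ _ _) g
        = ∑ i ∈ s, C (p i) * pderiv i g := by
    intro s g
    induction s using Finset.induction_on with
    | empty => simp
    | insert a s ha ih => rw [Finset.sum_insert ha, Finset.sum_insert ha, Derivation.add_apply, ih]; simp
  have h : D p = ∑ i, (C (p i) : MvPolynomial σ ℂ) • pderiv i := by
    apply derivation_ext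
    intro j
    rw [D_X, hs, Finset.sum_eq_single j]
    · simp
    · intro i _ hij
      simp [pderiv_X_of_ne hij.symm]
    · simp
  rw [h, hs]

omit [Fintype σ] in
lemma D_add (p q : σ → ℂ) : D (p + q) = D p + D q := by
  apply derivation_ext
  intro i
  simp

omit [Fintype σ] in
lemma D_smul (c : ℂ) (p : σ → ℂ) : D (c • p) = c • D p := by
  apply derivation_ext
  intro i
  simp [smul_eq_C_mul]

omit [Fintype σ] in
lemma Dl_add_smul (p q : σ → ℂ) (t : ℂ) : Dl (p + t • q) = Dl p + t • Dl q := by
  apply LinearMap.ext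
  intro f
  simp only [Dl_apply, LinearMap.add_apply, LinearMap.smul_apply, D_add, D_smul]
  rfl

omit [Fintype σ] in
lemma D_comm (p q : σ → ℂ) (f : MvPolynomial σ ℂ) : D p (D q f) = D q (D p f) := by
  have h : ⁅D p, D q⁆ = 0 := by
    apply derivation_ext
    intro i
    simp [Derivation.commutator_apply]
  have h2 := congrArg (fun d => d f) h
  simp only [Derivation.commutator_apply, Derivation.coe_zero, Pi.zero_apply] at h2
  exact sub_eq_zero.mp h2

omit [Fintype σ] in
lemma Dl_commute (p q : σ → ℂ) : Commute (Dl p) (Dl q) := by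
  rw [commute_iff_eq]
  apply LinearMap.ext
  intro f
  simp [Module.End.mul_apply, D_comm p q f]

lemma D_mem (p : σ → ℂ) {e : ℕ} {f : MvPolynomial σ ℂ} (hf : f ∈ V σ (e + 1)) :
    D p f ∈ V σ e := by
  rw [D_eq_sum]
  refine Submodule.sum_mem _ (fun i _ => ?_)
  have h1 : (pderiv i f).IsHomogeneous e := by
    have := IsHomogeneous.pderiv (i := i) ((mem_homogeneousSubmodule _ _).1 hf)
    simpa using this
  rw [← smul_eq_C_mul]
  exact Submodule.smul_mem _ _ ((mem_homogeneousSubmodule _ _).2 h1)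

omit [Fintype σ] in
lemma D_zero_of_deg_zero (p : σ → ℂ) {f : MvPolynomial σ ℂ} (hf : f ∈ V σ 0) : D p f = 0 := by
  have h := (mem_homogeneousSubmodule _ _).1 hf
  rw [← totalDegree_zero_iff_isHomogeneous, totalDegree_eq_zero_iff_eq_C] at h
  rw [h, D_C]

lemma Dl_pow_mem (p : σ → ℂ) (a : ℕ) {e : ℕ} {f : MvPolynomial σ ℂ} (hf : f ∈ V σ (e + a)) :
    ((Dl p) ^ a) f ∈ V σ e := by
  induction a generalizing e with
  | zero => simpa using hf
  | succ a ih =>
    rw [pow_succ', Module.End.mul_apply]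
    apply D_mem
    apply ih
    have : e + 1 + a = e + (a + 1) := by ring
    rw [this]; exact hf

/-- Euler: `D_p^e g = e! g(p)` for a form `g` of degree `e`. -/
lemma Dl_pow_eq_eval (p : σ → ℂ) (e : ℕ) {g : MvPolynomial σ ℂ} (hg : g ∈ V σ e) :
    ((Dl p) ^ e) g = C ((Nat.factorial e : ℂ) * eval p g) := by
  induction e generalizing g with
  | zero =>
    have h := (mem_homogeneousSubmodule _ _).1 hg
    rw [← totalDegree_zero_iff_isHomogeneous, totalDegree_eq_zero_iff_eq_C] at h
    rw [h]; simp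
  | succ e ih =>
    rw [pow_succ, Module.End.mul_apply, Dl_apply, ih (D_mem p hg)]
    congr 1
    have h := IsHomogeneous.sum_X_mul_pderiv ((mem_homogeneousSubmodule _ _).1 hg)
    have h2 := congrArg (eval p) h
    rw [D_eq_sum]
    simp only [map_sum, map_mul, eval_X, eval_C] at h2 ⊢
    rw [h2]
    simp [Nat.factorial_succ]
    ring

instance V_finiteDimensional (e : ℕ) : FiniteDimensional ℂ (V σ e) :=
  Module.Finite.of_fg (homogeneousSubmodule_fg σ ℂ e)

lemma finrank_V (e : ℕ) : Module.finrank ℂ (V σ e) = (Fintype.card σ + e - 1).choose e := by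
  classical
  have h := homogeneousSubmodule_eq_finsupp_supported σ ℂ e
  have h1 : Module.finrank ℂ (V σ e) =
      Module.finrank ℂ (AddMonoidAlgebra.supported ℂ ℂ {d : σ →₀ ℕ | Finsupp.degree d = e}) := by
    rw [← h]
  rw [h1, (AddMonoidAlgebra.supportedEquivFinsupp _).finrank_eq]
  have hs : {d : σ →₀ ℕ | Finsupp.degree d = e} = ((Finset.univ : Finset σ).finsuppAntidiag e : Set (σ →₀ ℕ)) := by
    ext d
    simp [Finset.mem_finsuppAntidiag, Finsupp.degree_eq_sum]
  rw [hs, Module.finrank_finsupp_self]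
  simp [Finset.card_finsuppAntidiag_nat_eq_choose]

end Pool.Agent.Lib.MP_921642_ag
end

section
/-!
The shift `f (X + t p)` as a polynomial in `t`, and interpolation of jets.
-/
set_option autoImplicit false

namespace Pool.Agent.Lib.MP_921642_ag

open MvPolynomial

variable {σ : Type} [Fintype σ]

/-- `f ↦ f (X + t p)`. -/
noncomputable def S (p : σ → ℂ) : MvPolynomial σ ℂ →ₐ[ℂ] Polynomial (MvPolynomial σ ℂ) :=
  aeval (fun i => Polynomial.C (X i) + Polynomial.X * Polynomial.C (C (p i)))

omit [Fintype σ] in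
@[simp] lemma S_X (p : σ → ℂ) (i : σ) :
    S p (X i) = Polynomial.C (X i) + Polynomial.X * Polynomial.C (C (p i)) := by
  simp [S]

omit [Fintype σ] in
lemma S_C (p : σ → ℂ) (c : ℂ) : S p (C c) = Polynomial.C (C c) := by
  simp only [S, aeval_C]
  rfl

omit [Fintype σ] in
lemma Dl_pow_mul_X (p : σ → ℂ) (f : MvPolynomial σ ℂ) (j : σ) (i : ℕ) :
    ((Dl p) ^ (i + 1)) (f * X j) =
      ((Dl p) ^ (i + 1)) f * X j + ((i + 1 : ℕ) : MvPolynomial σ ℂ) * C (p j) * ((Dl p) ^ i) f := by
  induction i with
  | zero => simp [Derivation.leibniz]; ring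
  | succ i ih =>
    have e1 : ((Dl p) ^ (i + 1 + 1)) (f * X j) = D p (((Dl p) ^ (i + 1)) (f * X j)) := by
      rw [pow_succ' _ (i + 1), Module.End.mul_apply, Dl_apply]
    have e2 : ((Dl p) ^ (i + 1 + 1)) f = D p (((Dl p) ^ (i + 1)) f) := by
      rw [pow_succ' _ (i + 1), Module.End.mul_apply, Dl_apply]
    have e3 : ((Dl p) ^ (i + 1)) f = D p (((Dl p) ^ i) f) := by
      rw [pow_succ' _ i, Module.End.mul_apply, Dl_apply]
    rw [e1, ih, e2, map_add, Derivation.leibniz, Derivation.leibniz, Derivation.leibniz, D_X, D_C,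
      ← e3, Derivation.map_natCast]
    simp only [smul_eq_mul, smul_zero]
    push_cast
    ring

omit [Fintype σ] in
/-- Taylor: the `i`-th coefficient of `f (X + t p)` is `D_p^i f / i!`. -/
lemma coeff_S (p : σ → ℂ) (f : MvPolynomial σ ℂ) (i : ℕ) :
    ((Nat.factorial i : ℕ) : MvPolynomial σ ℂ) * (S p f).coeff i = ((Dl p) ^ i) f := by
  induction f using MvPolynomial.induction_on generalizing i with
  | C c =>
    rw [S_C, Polynomial.coeff_C]
    cases i with
    | zero => simp
    | succ i =>
      rw [pow_succ, Module.End.mul_apply]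
      simp
  | add f g hf hg =>
    rw [map_add, Polynomial.coeff_add, mul_add, hf, hg, map_add]
  | mul_X f j hf =>
    rw [map_mul, S_X, mul_add, Polynomial.coeff_add, Polynomial.coeff_mul_C, ← mul_assoc]
    cases i with
    | zero =>
      have := hf 0
      simp only [Nat.factorial_zero, Nat.cast_one, one_mul, pow_zero, Module.End.one_apply] at this
      simp [this]
    | succ i =>
      rw [Polynomial.coeff_mul_C, Polynomial.coeff_mul_X, Dl_pow_mul_X, ← hf (i + 1), ← hf i,
        Nat.factorial_succ]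
      push_cast
      ring

omit [Fintype σ] in
lemma natCast_ne_zero' {i : ℕ} (hi : i ≠ 0) : ((i : ℕ) : MvPolynomial σ ℂ) ≠ 0 := by
  exact_mod_cast hi

omit [Fintype σ] in
lemma coeff_S_eq_zero (p : σ → ℂ) (f : MvPolynomial σ ℂ) (i : ℕ) (h : ((Dl p) ^ i) f = 0) :
    (S p f).coeff i = 0 := by
  have h1 := coeff_S p f i
  rw [h] at h1
  rcases mul_eq_zero.mp h1 with h2 | h2
  · exact absurd h2 (natCast_ne_zero' (Nat.factorial_ne_zero i))
  · exact h2

/-- For a form of degree `e` the shift has degree at most `e` in `t`. -/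
lemma natDegree_S_le (p : σ → ℂ) {e : ℕ} {f : MvPolynomial σ ℂ} (hf : f ∈ V σ e) :
    (S p f).natDegree ≤ e := by
  rw [Polynomial.natDegree_le_iff_coeff_eq_zero]
  intro i hi
  apply coeff_S_eq_zero
  obtain ⟨k, rfl⟩ : ∃ k, i = (k + 1) + e := ⟨i - e - 1, by omega⟩
  rw [pow_add, Module.End.mul_apply, Dl_pow_eq_eval p e hf, pow_succ, Module.End.mul_apply]
  simp

lemma coeff_S_top (p : σ → ℂ) {e : ℕ} {f : MvPolynomial σ ℂ} (hf : f ∈ V σ e) :
    (S p f).coeff e = C (eval p f) := by
  have h1 := coeff_S p f e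
  rw [Dl_pow_eq_eval p e hf, C_mul] at h1
  have h2 : ((Nat.factorial e : ℕ) : MvPolynomial σ ℂ) = C (Nat.factorial e : ℂ) := by simp
  rw [← h2] at h1
  exact mul_left_cancel₀ (natCast_ne_zero' (Nat.factorial_ne_zero e)) h1

omit [Fintype σ] in
lemma coeff_S_one (p : σ → ℂ) (f : MvPolynomial σ ℂ) : (S p f).coeff 1 = D p f := by
  have h1 := coeff_S p f 1
  simpa using h1

/-- A form killed by `D_p` is invariant under the projection along `p`. -/
lemma aeval_eq_self_of_D_eq_zero (p : σ → ℂ) (x : MvPolynomial σ ℂ) {g : MvPolynomial σ ℂ}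
    (hg : D p g = 0) : aeval (fun v => X v - C (p v) * x) g = g := by
  have h1 : S p g = Polynomial.C g := by
    ext1 i
    rw [Polynomial.coeff_C]
    split_ifs with hi
    · subst hi
      have := coeff_S p g 0
      simpa using this
    · apply coeff_S_eq_zero
      obtain ⟨k, rfl⟩ : ∃ k, i = k + 1 := ⟨i - 1, by omega⟩
      rw [pow_succ, Module.End.mul_apply, Dl_apply, hg, map_zero]
  have h2 : ((Polynomial.aeval (-x)).restrictScalars ℂ).comp (S p) =
      aeval (fun v => X v - C (p v) * x) := by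
    apply MvPolynomial.algHom_ext
    intro i
    simp
    ring
  rw [← h2]
  simp [h1]

end Pool.Agent.Lib.MP_921642_ag
end

section
/-!
Interpolation of jets at points which are cut out by quadrics.
-/
set_option autoImplicit false

namespace Pool.Agent.Lib.MP_921642_ag

open MvPolynomial

lemma coeff_prod_sum {A : Type} [CommRing A] {ι : Type} (s : Finset ι) (f : ι → Polynomial A)
    (n : ι → ℕ) (h : ∀ i ∈ s, (f i).natDegree ≤ n i) :
    (∏ i ∈ s, f i).natDegree ≤ ∑ i ∈ s, n i ∧
      (∏ i ∈ s, f i).coeff (∑ i ∈ s, n i) = ∏ i ∈ s, (f i).coeff (n i) := by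
  classical
  induction s using Finset.induction_on with
  | empty => simp
  | insert a s ha ih =>
    have h1 := ih (fun i hi => h i (Finset.mem_insert_of_mem hi))
    have h2 := h a (Finset.mem_insert_self a s)
    rw [Finset.prod_insert ha, Finset.sum_insert ha, Finset.prod_insert ha]
    refine ⟨Polynomial.natDegree_mul_le_of_le h2 h1.1, ?_⟩
    rw [Polynomial.coeff_mul_add_eq_of_natDegree_le h2 h1.1, h1.2]

variable {σ : Type} [Fintype σ]

omit [Fintype σ] in
lemma aeval_top (Q : σ → Polynomial (MvPolynomial σ ℂ)) (hQ : ∀ v, (Q v).natDegree ≤ 1)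
    {j : ℕ} {g : MvPolynomial σ ℂ} (hg : g ∈ V σ j) :
    (aeval Q g).natDegree ≤ j ∧
      (aeval Q g).coeff j = aeval (fun v => (Q v).coeff 1) g := by
  classical
  have hdeg : ∀ α ∈ g.support, ∑ i ∈ α.support, α i = j := by
    intro α hα
    have h1 := (mem_homogeneousSubmodule _ _).1 hg (mem_support_iff.mp hα)
    simpa [Finsupp.weight_apply, Finsupp.sum] using h1
  have key : ∀ α : σ →₀ ℕ, (∏ i ∈ α.support, Q i ^ α i).natDegree ≤ ∑ i ∈ α.support, α i ∧
      (∏ i ∈ α.support, Q i ^ α i).coeff (∑ i ∈ α.support, α i)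
        = ∏ i ∈ α.support, (Q i).coeff 1 ^ α i := by
    intro α
    have h1 := coeff_prod_sum α.support (fun i => Q i ^ α i) (fun i => α i) (by
      intro i _
      have := Polynomial.natDegree_pow_le_of_le (α i) (hQ i)
      simpa using this)
    refine ⟨h1.1, ?_⟩
    rw [h1.2]
    refine Finset.prod_congr rfl (fun i _ => ?_)
    have h2 := Polynomial.coeff_pow_of_natDegree_le (m := α i) (hQ i)
    simpa using h2
  rw [aeval_def, aeval_def, eval₂_eq, eval₂_eq]
  constructor
  · apply Polynomial.natDegree_sum_le_of_forall_le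
    intro α hα
    have h1 := (key α).1
    rw [hdeg α hα] at h1
    refine le_trans (Polynomial.natDegree_C_mul_le _ _) h1
  · rw [Polynomial.finsetSum_coeff]
    refine Finset.sum_congr rfl (fun α hα => ?_)
    have h1 := (key α).2
    rw [hdeg α hα] at h1
    have h3 : (algebraMap ℂ (Polynomial (MvPolynomial σ ℂ))) (coeff α g)
        = Polynomial.C (algebraMap ℂ (MvPolynomial σ ℂ) (coeff α g)) := rfl
    rw [h3, Polynomial.coeff_C_mul, h1]

/-- Data of finitely many points which can be interpolated with quadrics. -/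
structure QuadData (σ : Type) [Fintype σ] (ι : Type) [Fintype ι] (r : ℕ) where
  P : ι → σ → ℂ
  x : MvPolynomial σ ℂ
  E : ι → MvPolynomial σ ℂ
  θ : ι → σ → MvPolynomial σ ℂ
  hx : x ∈ V σ 1
  hx1 : ∀ i, eval (P i) x = 1
  hE : ∀ i, E i ∈ V σ r
  hE0 : ∀ i i', i ≠ i' → eval (P i) (E i') = 0
  hE1 : ∀ i, eval (P i) (E i) = 1
  hθ : ∀ i v, θ i v ∈ V σ 2
  hθ0 : ∀ i i' v, eval (P i') (θ i v) = 0
  hθ1 : ∀ i v, D (P i) (θ i v) = X v - C (P i v) * x

variable {ι : Type} [Fintype ι] {r : ℕ}

omit [Fintype σ] in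
lemma aeval_mem (θ : σ → MvPolynomial σ ℂ) (hθ : ∀ v, θ v ∈ V σ 2) {j : ℕ}
    {g : MvPolynomial σ ℂ} (hg : g ∈ V σ j) : aeval θ g ∈ V σ (2 * j) := by
  have := ((mem_homogeneousSubmodule _ _).1 hg).aeval θ
    (fun i => (mem_homogeneousSubmodule _ _).1 (hθ i))
  exact (mem_homogeneousSubmodule _ _).2 this

lemma QuadData.key (q : QuadData σ ι r) (i0 : ι) {j : ℕ} {g : MvPolynomial σ ℂ} (hg : g ∈ V σ j)
    (hDg : D (q.P i0) g = 0) (c : ℕ) :
    (q.E i0 * aeval (q.θ i0) g * q.x ^ c) ∈ V σ (r + 2 * j + c) ∧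
    ∀ i, (i = i0 → ((Dl (q.P i)) ^ (r + j + c)) (q.E i0 * aeval (q.θ i0) g * q.x ^ c) =
        ((Nat.factorial (r + j + c) : ℕ) : MvPolynomial σ ℂ) * g) ∧
      (i ≠ i0 → ((Dl (q.P i)) ^ (r + j + c)) (q.E i0 * aeval (q.θ i0) g * q.x ^ c) = 0) := by
  constructor
  · have h1 := (mem_homogeneousSubmodule _ _).1 (q.hE i0)
    have h2 := (mem_homogeneousSubmodule _ _).1 (aeval_mem (q.θ i0) (q.hθ i0) hg)
    have h3 := ((mem_homogeneousSubmodule _ _).1 q.hx).pow c
    have h4 := (h1.mul h2).mul h3
    rw [one_mul] at h4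
    exact (mem_homogeneousSubmodule _ _).2 h4
  · intro i
    have hQ : ∀ v, (S (q.P i) (q.θ i0 v)).natDegree ≤ 1 := by
      intro v
      have h1 := natDegree_S_le (q.P i) (q.hθ i0 v)
      rw [Polynomial.natDegree_le_iff_coeff_eq_zero] at h1 ⊢
      intro m hm
      rcases Nat.lt_or_ge 2 m with h2 | h2
      · exact h1 m h2
      · have : m = 2 := by omega
        subst this
        rw [coeff_S_top (q.P i) (q.hθ i0 v), q.hθ0]
        simp
    have hcomp : S (q.P i) (aeval (q.θ i0) g) = aeval (fun v => S (q.P i) (q.θ i0 v)) g := by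
      have : (S (q.P i)).comp (aeval (q.θ i0)) = aeval (fun v => S (q.P i) (q.θ i0 v)) := by
        apply MvPolynomial.algHom_ext
        intro v
        simp
      rw [← this]; rfl
    have ht := aeval_top (fun v => S (q.P i) (q.θ i0 v)) hQ hg
    rw [← hcomp] at ht
    have hx' : (S (q.P i) q.x).natDegree ≤ 1 := natDegree_S_le _ q.hx
    have hxt : (S (q.P i) q.x).coeff 1 = 1 := by
      rw [coeff_S_top (q.P i) q.hx, q.hx1]; simp
    have hxc : ((S (q.P i) q.x) ^ c).natDegree ≤ c := by
      simpa using Polynomial.natDegree_pow_le_of_le c hx'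
    have hxct : ((S (q.P i) q.x) ^ c).coeff c = 1 := by
      have h2 := Polynomial.coeff_pow_of_natDegree_le (m := c) hx'
      rw [mul_one, hxt, one_pow] at h2
      exact h2
    have hE' : (S (q.P i) (q.E i0)).natDegree ≤ r := natDegree_S_le _ (q.hE i0)
    have hEt : (S (q.P i) (q.E i0)).coeff r = C (eval (q.P i) (q.E i0)) :=
      coeff_S_top (q.P i) (q.hE i0)
    have htot : (S (q.P i) (q.E i0 * aeval (q.θ i0) g * q.x ^ c)).coeff (r + j + c) =
        C (eval (q.P i) (q.E i0)) * aeval (fun v => D (q.P i) (q.θ i0 v)) g := by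
      rw [map_mul, map_mul, map_pow,
        Polynomial.coeff_mul_add_eq_of_natDegree_le (Polynomial.natDegree_mul_le_of_le hE' ht.1) hxc,
        hxct, Polynomial.coeff_mul_add_eq_of_natDegree_le hE' ht.1, ht.2, hEt, mul_one]
      simp only [coeff_S_one]
    rw [← coeff_S, htot]
    constructor
    · intro hi
      subst hi
      rw [q.hE1]
      have h5 : (fun v => D (q.P i) (q.θ i v)) = fun v => X v - C (q.P i v) * q.x := by
        funext v; exact q.hθ1 i v
      rw [h5, aeval_eq_self_of_D_eq_zero _ _ hDg]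
      simp
    · intro hi
      rw [q.hE0 i i0 hi]
      simp

/-- All jets of order `k` can be interpolated by forms of degree `a + k` as soon as
`2 k + r ≤ a + k`. -/
theorem QuadData.surj (q : QuadData σ ι r) (a k : ℕ) (hak : k + r ≤ a)
    (w : ι → MvPolynomial σ ℂ) (hw : ∀ i, w i ∈ V σ k) :
    ∃ u ∈ V σ (k + a), ∀ i, ((Dl (q.P i)) ^ a) u = w i := by
  classical
  have claim : ∀ b : ℕ, b ≤ k + 1 → ∀ w : ι → MvPolynomial σ ℂ, (∀ i, w i ∈ V σ k) →
      (∀ i, ((Dl (q.P i)) ^ b) (w i) = 0) →
      ∃ u ∈ V σ (k + a), ∀ i, ((Dl (q.P i)) ^ a) u = w i := by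
    intro b
    induction b with
    | zero =>
      intro _ w _ hw0
      refine ⟨0, Submodule.zero_mem _, fun i => ?_⟩
      have := hw0 i
      simp only [pow_zero, Module.End.one_apply] at this
      rw [this, map_zero]
    | succ b ih =>
      intro hb w hw hw0
      obtain ⟨j, rfl⟩ : ∃ j, k = j + b := ⟨k - b, by omega⟩
      obtain ⟨c, hc⟩ : ∃ c, j + b + a = r + 2 * j + c := ⟨j + b + a - (r + 2 * j), by omega⟩
      have hN : ((Nat.factorial (r + j + c) : ℕ) : ℂ) ≠ 0 := by
        exact_mod_cast Nat.factorial_ne_zero _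
      set g : ι → MvPolynomial σ ℂ := fun i => ((Dl (q.P i)) ^ b) (w i) with hgdef
      have hg : ∀ i, g i ∈ V σ j := fun i => Dl_pow_mem _ b (hw i)
      have hDg : ∀ i, D (q.P i) (g i) = 0 := by
        intro i
        have := hw0 i
        rw [pow_succ', Module.End.mul_apply] at this
        exact this
      set u0 : MvPolynomial σ ℂ := ∑ i, (((Nat.factorial (r + j + c) : ℕ) : ℂ)⁻¹) •
        (q.E i * aeval (q.θ i) (g i) * q.x ^ c) with hu0
      have hu0V : u0 ∈ V σ (j + b + a) := by
        rw [hc]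
        exact Submodule.sum_mem _ (fun i _ => Submodule.smul_mem _ _ (q.key i (hg i) (hDg i) c).1)
      have hu0D : ∀ i, ((Dl (q.P i)) ^ (b + a)) u0 = g i := by
        intro i
        have hba : b + a = r + j + c := by omega
        rw [hba, hu0, map_sum, Finset.sum_eq_single i]
        · rw [map_smul, ((q.key i (hg i) (hDg i) c).2 i).1 rfl]
          have h6 : ((Nat.factorial (r + j + c) : ℕ) : MvPolynomial σ ℂ) * g i =
              ((Nat.factorial (r + j + c) : ℕ) : ℂ) • g i := by
            rw [smul_eq_C_mul]; simp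
          rw [h6, smul_smul, inv_mul_cancel₀ hN, one_smul]
        · intro i' _ hne
          rw [map_smul, ((q.key i' (hg i') (hDg i') c).2 i).2 hne.symm, smul_zero]
        · simp
      obtain ⟨u1, hu1, hu1D⟩ := ih (by omega) (fun i => w i - ((Dl (q.P i)) ^ a) u0)
        (fun i => Submodule.sub_mem _ (hw i) (Dl_pow_mem _ a hu0V))
        (fun i => by
          rw [map_sub, ← Module.End.mul_apply, ← pow_add, hu0D i, hgdef]
          simp)
      refine ⟨u0 + u1, Submodule.add_mem _ hu0V hu1, fun i => ?_⟩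
      rw [map_add, hu1D i]
      abel
  refine claim (k + 1) le_rfl w hw (fun i => ?_)
  rw [pow_succ', Module.End.mul_apply, Dl_pow_eq_eval _ k (hw i)]
  simp

end Pool.Agent.Lib.MP_921642_ag
end

section
/-!
Lower semicontinuity of the rank in polynomial families of linear maps.
-/
set_option autoImplicit false

namespace Pool.Agent.Lib.MP_921642_ag

open Polynomial in
theorem rank_semicont {U W : Type} [AddCommGroup U] [Module ℂ U] [FiniteDimensional ℂ U]
    [AddCommGroup W] [Module ℂ W] (N : ℕ) (M' : ℕ → U →ₗ[ℂ] W) (M : ℂ → U →ₗ[ℂ] W)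
    (hM : ∀ t, M t = ∑ i ∈ Finset.range N, t ^ i • M' i) (t0 : ℂ) :
    {t : ℂ | Module.finrank ℂ (LinearMap.range (M t)) <
      Module.finrank ℂ (LinearMap.range (M t0))}.Finite := by
  classical
  set r := Module.finrank ℂ (LinearMap.range (M t0)) with hr
  let b : Module.Basis (Fin r) ℂ (LinearMap.range (M t0)) := Module.finBasisOfFinrankEq ℂ _ hr.symm
  have hu : ∀ i, ∃ u : U, M t0 u = (b i : W) := fun i => (b i).2
  choose u hu using hu
  let G : (Fin r → ℂ) →ₗ[ℂ] U := Fintype.linearCombination ℂ u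
  have hGa : ∀ c : Fin r → ℂ, G c = ∑ i, c i • u i := fun c => by
    simp [G, Fintype.linearCombination_apply]
  have hinj : Function.Injective ((M t0) ∘ₗ G) := by
    rw [← LinearMap.ker_eq_bot, LinearMap.ker_eq_bot']
    intro c hc
    have h1 : (M t0) (G c) = ((∑ i, c i • b i : LinearMap.range (M t0)) : W) := by
      rw [hGa, map_sum]
      simp [hu]
    rw [LinearMap.comp_apply, h1] at hc
    have h2 : ∑ i, c i • b i = 0 := by
      apply Subtype.ext
      rw [hc]; rfl
    have h3 := Fintype.linearIndependent_iff.mp b.linearIndependent c h2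
    funext i
    exact h3 i
  obtain ⟨B, hB⟩ := LinearMap.exists_leftInverse_of_injective _ (LinearMap.ker_eq_bot.mpr hinj)
  let A : Matrix (Fin r) (Fin r) (Polynomial ℂ) := Matrix.of fun i j =>
    ∑ k ∈ Finset.range N, Polynomial.C (B (M' k (u j)) i) * Polynomial.X ^ k
  have hA : ∀ t : ℂ, (A.map (Polynomial.evalRingHom t)) = LinearMap.toMatrix' (B ∘ₗ (M t) ∘ₗ G) := by
    intro t
    ext i j
    rw [LinearMap.toMatrix'_apply]
    simp only [Matrix.map_apply, A, Matrix.of_apply, LinearMap.comp_apply, hGa]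
    have : ∑ i, (fun j' => if j' = j then (1 : ℂ) else 0) i • u i = u j := by
      simp
    simp only [Polynomial.coe_evalRingHom, Polynomial.eval_finsetSum, Polynomial.eval_mul,
      Polynomial.eval_C, Polynomial.eval_pow, Polynomial.eval_X]
    have h4 : (∑ i', (Pi.single j (1 : ℂ) : Fin r → ℂ) i' • u i') = u j := by
      rw [Finset.sum_eq_single j]
      · simp
      · intro b' _ hb'
        simp [Pi.single_eq_of_ne hb']
      · simp
    rw [h4, hM t]
    simp only [LinearMap.sum_apply, LinearMap.smul_apply, map_sum, map_smul, Finset.sum_apply,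
      Pi.smul_apply, smul_eq_mul]
    refine Finset.sum_congr rfl (fun k _ => ?_)
    ring
  let P : Polynomial ℂ := A.det
  have hP : ∀ t, P.eval t = (LinearMap.toMatrix' (B ∘ₗ (M t) ∘ₗ G)).det := by
    intro t
    rw [← hA t]
    have := RingHom.map_det (Polynomial.evalRingHom t) A
    simpa [P] using this
  have hPne : P ≠ 0 := by
    intro h0
    have h1 := hP t0
    rw [h0, hB] at h1
    simp at h1
  have hfin : {t : ℂ | P.IsRoot t}.Finite := Polynomial.finite_setOfPred_isRoot hPne
  refine hfin.subset (fun t ht => ?_)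
  by_contra hroot
  have hdet : (LinearMap.toMatrix' (B ∘ₗ (M t) ∘ₗ G)).det ≠ 0 := by
    rw [← hP t]; exact hroot
  have hbij : LinearMap.range (B ∘ₗ (M t) ∘ₗ G) = ⊤ := by
    have h5 : IsUnit (B ∘ₗ (M t) ∘ₗ G) := by
      rw [LinearMap.isUnit_iff_isUnit_det, ← LinearMap.det_toMatrix']
      exact isUnit_iff_ne_zero.mpr hdet
    exact LinearMap.range_eq_top.mpr ((Module.End.isUnit_iff _).mp h5).2
  have h6 : Module.finrank ℂ (LinearMap.range (B ∘ₗ (M t) ∘ₗ G)) = r := by
    rw [hbij, finrank_top]; simp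
  have h7 : LinearMap.range (B ∘ₗ (M t) ∘ₗ G) ≤ Submodule.map B (LinearMap.range (M t)) := by
    rintro _ ⟨c, rfl⟩
    exact ⟨M t (G c), ⟨G c, rfl⟩, rfl⟩
  have h8 := Submodule.finrank_mono h7
  have h9 := Submodule.finrank_map_le B (LinearMap.range (M t))
  have ht' : Module.finrank ℂ (LinearMap.range (M t)) < r := ht
  omega

end Pool.Agent.Lib.MP_921642_ag
end

section
/-!
The numerical inequality showing that one point more than the number of special points already
makes the virtual dimension negative.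
-/
set_option autoImplicit false

namespace Pool.Agent.Lib.MP_921642_ag

open Finset

/-- the residue class of `b` in `range n` -/
def blockOf (n r b : ℕ) : Finset ℕ := (range n).filter (fun v => v % r = b)

lemma blockOf_cases {n r b : ℕ} (hb : b < r) (hrn : r ≤ n) (hn : n ≤ 3 * r) :
    (n ≤ b + r ∧ blockOf n r b = {b}) ∨
    (b + r < n ∧ n ≤ b + 2 * r ∧ blockOf n r b = {b, b + r}) ∨
    (b + 2 * r < n ∧ blockOf n r b = {b, b + r, b + 2 * r}) := by
  have key : ∀ v, v ∈ blockOf n r b ↔ v < n ∧ (v = b ∨ v = b + r ∨ v = b + 2 * r) := by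
    intro v
    simp only [blockOf, mem_filter, mem_range]
    constructor
    · rintro ⟨h1, h2⟩
      refine ⟨h1, ?_⟩
      have h3 := Nat.div_add_mod v r
      rw [h2] at h3
      have h4 : v / r < 3 := by
        rw [Nat.div_lt_iff_lt_mul (by omega)]
        omega
      interval_cases h5 : v / r <;> omega
    · rintro ⟨h1, h2⟩
      refine ⟨h1, ?_⟩
      rcases h2 with h | h | h
      · subst h; exact Nat.mod_eq_of_lt hb
      · subst h; rw [Nat.add_mod_right, Nat.mod_eq_of_lt hb]
      · subst h; rw [Nat.add_mul_mod_self_right, Nat.mod_eq_of_lt hb]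
  rcases Nat.lt_or_ge (b + r) n with h1 | h1
  · rcases Nat.lt_or_ge (b + 2 * r) n with h2 | h2
    · right; right
      refine ⟨h2, ?_⟩
      ext v
      rw [key]
      simp only [mem_insert, mem_singleton]
      constructor
      · rintro ⟨_, h⟩; exact h
      · intro h; exact ⟨by omega, h⟩
    · right; left
      refine ⟨h1, h2, ?_⟩
      ext v
      rw [key]
      simp only [mem_insert, mem_singleton]
      constructor
      · rintro ⟨_, h⟩; omega
      · intro h; omega
  · left
    refine ⟨h1, ?_⟩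
    ext v
    rw [key]
    simp only [mem_singleton]
    constructor
    · rintro ⟨_, h⟩; omega
    · intro h; omega

/-- factors -/
def fA (a k v : ℕ) : ℚ := 2 * a + k + 1 + v
def fB (a k v : ℕ) : ℚ := a + k + 1 + v
def fC (k v : ℕ) : ℚ := k + 1 + v

lemma fA_pos (a k v : ℕ) : 0 < fA a k v := by unfold fA; positivity
lemma fB_pos (a k v : ℕ) : 0 < fB a k v := by unfold fB; positivity
lemma fC_pos (k v : ℕ) : 0 < fC k v := by unfold fC; positivity

/-- normalised factor of the first kind of a block -/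
def al (n r a k b : ℕ) : ℚ :=
  (∏ v ∈ blockOf n r b, fA a k v / fB a k v) / ((blockOf n r b).card + 1)

/-- normalised factor of the second kind of a block -/
def be (n r a k b : ℕ) : ℚ :=
  (∏ v ∈ blockOf n r b, fC k v / fB a k v) * ((blockOf n r b).card + 1)

lemma al_pos (n r a k b : ℕ) : 0 < al n r a k b := by
  unfold al
  apply div_pos
  · exact Finset.prod_pos (fun v _ => div_pos (fA_pos _ _ _) (fB_pos _ _ _))
  · positivity

lemma be_pos (n r a k b : ℕ) : 0 < be n r a k b := by
  unfold be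
  apply mul_pos
  · exact Finset.prod_pos (fun v _ => div_pos (fC_pos _ _) (fB_pos _ _ _))
  · positivity

lemma single_bound {n r a k b : ℕ} (hk : k + r ≤ a) (hb : b < r) (h : blockOf n r b = {b}) :
    al n r a k b = 1 - be n r a k b / 4 ∧ be n r a k b ≤ 1 := by
  have hB := fB_pos a k b
  constructor
  · unfold al be
    rw [h]
    simp only [prod_singleton, card_singleton]
    field_simp
    unfold fA fB fC
    push_cast
    ring
  · unfold be
    rw [h]
    simp only [prod_singleton, card_singleton]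
    rw [div_mul_eq_mul_div, div_le_one hB]
    unfold fB fC
    have h1 : (k : ℚ) + r ≤ a := by exact_mod_cast hk
    have h2 : (b : ℚ) + 1 ≤ r := by exact_mod_cast hb
    push_cast
    linarith

lemma pair_bound {n r a k b : ℕ} (hk : k + r = a) (hb : b < r) (h : blockOf n r b = {b, b + r}) :
    al n r a k b ≤ 1 - be n r a k b / 3 ∧ be n r a k b ≤ 1 := by
  have hB := fB_pos a k b
  have hB' := fB_pos a k (b + r)
  have hne : b ≠ b + r := by omega
  have h1 : (a : ℚ) = k + r := by exact_mod_cast hk.symm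
  have h2 : (b : ℚ) + 1 ≤ r := by exact_mod_cast hb
  have hb0 : (0 : ℚ) ≤ b := by positivity
  have hk0 : (0 : ℚ) ≤ k := by positivity
  have hal : al n r a k b = (fA a k b * fA a k (b + r)) / (3 * (fB a k b * fB a k (b + r))) := by
    unfold al
    rw [h, prod_pair hne, card_pair hne]
    field_simp
    norm_num
  have hbe : be n r a k b = 3 * (fC k b * fC k (b + r)) / (fB a k b * fB a k (b + r)) := by
    unfold be
    rw [h, prod_pair hne, card_pair hne]
    field_simp
    norm_num
  have hBB : 0 < fB a k b * fB a k (b + r) := mul_pos hB hB'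
  constructor
  · rw [hal, hbe, div_le_iff₀ (by positivity), sub_mul, one_mul]
    have e1 : 3 * (fC k b * fC k (b + r)) / (fB a k b * fB a k (b + r)) / 3 *
        (3 * (fB a k b * fB a k (b + r))) = 3 * (fC k b * fC k (b + r)) := by
      field_simp
    rw [e1]
    unfold fA fB fC
    push_cast
    rw [h1]
    nlinarith [mul_nonneg hb0 (sub_nonneg.mpr h2), mul_nonneg (add_nonneg hb0 zero_le_one) (sub_nonneg.mpr h2)]
  · rw [hbe, div_le_one hBB]
    unfold fB fC
    push_cast
    rw [h1]
    nlinarith [mul_nonneg hb0 (sub_nonneg.mpr h2), mul_nonneg (add_nonneg hb0 zero_le_one) (sub_nonneg.mpr h2)]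

lemma triple_bound {n r a k b : ℕ} (hk : k + r = a) (hb : b < r)
    (h : blockOf n r b = {b, b + r, b + 2 * r}) :
    al n r a k b ≤ 1 - 5 * be n r a k b / 16 ∧ be n r a k b ≤ 1 := by
  have hB := fB_pos a k b
  have hB' := fB_pos a k (b + r)
  have hB'' := fB_pos a k (b + 2 * r)
  have hne : b + r ≠ b + 2 * r := by omega
  have hne2 : b ∉ ({b + r, b + 2 * r} : Finset ℕ) := by
    simp only [mem_insert, mem_singleton]; omega
  have h1 : (a : ℚ) = k + r := by exact_mod_cast hk.symm
  have h2 : (b : ℚ) + 1 ≤ r := by exact_mod_cast hb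
  have hb0 : (0 : ℚ) ≤ b := by positivity
  have hk0 : (0 : ℚ) ≤ k := by positivity
  have hcard : (({b, b + r, b + 2 * r} : Finset ℕ).card : ℚ) = 3 := by
    rw [card_insert_of_notMem hne2, card_pair hne]; norm_num
  have hal : al n r a k b = (fA a k b * (fA a k (b + r) * fA a k (b + 2 * r))) /
      (4 * (fB a k b * (fB a k (b + r) * fB a k (b + 2 * r)))) := by
    unfold al
    rw [h, hcard, prod_insert hne2, prod_pair hne]
    field_simp
    norm_num
  have hbe : be n r a k b = 4 * (fC k b * (fC k (b + r) * fC k (b + 2 * r))) /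
      (fB a k b * (fB a k (b + r) * fB a k (b + 2 * r))) := by
    unfold be
    rw [h, hcard, prod_insert hne2, prod_pair hne]
    field_simp
    norm_num
  have hBB : 0 < fB a k b * (fB a k (b + r) * fB a k (b + 2 * r)) :=
    mul_pos hB (mul_pos hB' hB'')
  -- write everything in terms of a, i = b + 1, r
  have hi : ∃ i : ℚ, i = b + 1 := ⟨_, rfl⟩
  obtain ⟨i, hi⟩ := hi
  have hi1 : 1 ≤ i := by rw [hi]; linarith
  have hir : i ≤ r := by rw [hi]; exact h2
  have hra : (r : ℚ) ≤ a := by rw [h1]; linarith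
  have hi2 : i ^ 2 ≤ (r : ℚ) ^ 2 := by nlinarith
  have hr2 : (r : ℚ) ^ 2 ≤ (a : ℚ) ^ 2 := by nlinarith
  have hka : (k : ℚ) = a - r := by rw [h1]; ring
  constructor
  · rw [hal, hbe, div_le_iff₀ (by positivity), sub_mul, one_mul]
    have e1 : 5 * (4 * (fC k b * (fC k (b + r) * fC k (b + 2 * r))) /
        (fB a k b * (fB a k (b + r) * fB a k (b + 2 * r)))) / 16 *
        (4 * (fB a k b * (fB a k (b + r) * fB a k (b + 2 * r)))) =
        5 * (fC k b * (fC k (b + r) * fC k (b + 2 * r))) := by
      field_simp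
      norm_num
      ring
    rw [e1]
    have e2 : 4 * (fB a k b * (fB a k (b + r) * fB a k (b + 2 * r))) -
        5 * (fC k b * (fC k (b + r) * fC k (b + 2 * r))) -
        (fA a k b * (fA a k (b + r) * fA a k (b + 2 * r))) =
        2 * i * (3 * (a : ℚ) ^ 2 + (r : ℚ) ^ 2 - i ^ 2) := by
      unfold fA fB fC
      push_cast
      rw [hka, hi]
      ring
    have e3 : 0 ≤ 2 * i * (3 * (a : ℚ) ^ 2 + (r : ℚ) ^ 2 - i ^ 2) := by
      apply mul_nonneg
      · linarith
      · nlinarith
    linarith
  · rw [hbe, div_le_one hBB]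
    have e2 : fB a k b * (fB a k (b + r) * fB a k (b + 2 * r)) -
        4 * (fC k b * (fC k (b + r) * fC k (b + 2 * r))) =
        4 * (a : ℚ) ^ 3 - 6 * a * i ^ 2 - 3 * i ^ 3 + 2 * a * (r : ℚ) ^ 2 + 3 * i * (r : ℚ) ^ 2 := by
      unfold fB fC
      push_cast
      rw [hka, hi]
      ring
    have ha0 : (0 : ℚ) ≤ a := by positivity
    have e3 : 0 ≤ 4 * (a : ℚ) ^ 3 - 6 * a * i ^ 2 - 3 * i ^ 3 + 2 * a * (r : ℚ) ^ 2 +
        3 * i * (r : ℚ) ^ 2 := by
      have f1 : 0 ≤ (2 * (a : ℚ) + 3 * i) * ((r : ℚ) ^ 2 - i ^ 2) :=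
        mul_nonneg (by linarith) (by linarith)
      have f2 : 0 ≤ 4 * (a : ℚ) * ((a : ℚ) ^ 2 - i ^ 2) := mul_nonneg (by linarith) (by linarith)
      nlinarith
    linarith

/-- All blocks satisfy the uniform bounds. -/
lemma block_bound {n r a k b : ℕ} (hk : k + r ≤ a) (hk' : r < n → k + r = a) (hb : b < r)
    (hrn : r ≤ n) (hn : n ≤ 3 * r) :
    al n r a k b ≤ 1 - be n r a k b / 4 ∧ be n r a k b ≤ 1 := by
  have hpos := be_pos n r a k b
  rcases blockOf_cases hb hrn hn with ⟨_, h⟩ | ⟨h1, _, h⟩ | ⟨h1, h⟩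
  · have := single_bound hk hb h
    exact ⟨this.1.le, this.2⟩
  · have := pair_bound (hk' (by omega)) hb h
    exact ⟨by linarith [this.1], this.2⟩
  · have := triple_bound (hk' (by omega)) hb h
    exact ⟨by linarith [this.1], this.2⟩

/-- number of special points -/
def numPts (n r : ℕ) : ℕ := ∏ b ∈ range r, ((blockOf n r b).card + 1)

lemma prod_blocks (n r : ℕ) (hr : 0 < r) (f : ℕ → ℚ) :
    ∏ b ∈ range r, ∏ v ∈ blockOf n r b, f v = ∏ v ∈ range n, f v := by
  unfold blockOf
  exact Finset.prod_fiberwise_of_maps_to (fun v _ => mem_range.mpr (Nat.mod_lt v hr)) f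

lemma prod_al (n r a k : ℕ) (hr : 0 < r) :
    ∏ v ∈ range n, (fA a k v / fB a k v) = (numPts n r : ℚ) * ∏ b ∈ range r, al n r a k b := by
  rw [← prod_blocks n r hr]
  unfold numPts
  push_cast
  rw [← Finset.prod_mul_distrib]
  refine Finset.prod_congr rfl (fun b _ => ?_)
  unfold al
  field_simp

lemma prod_be (n r a k : ℕ) (hr : 0 < r) :
    (numPts n r : ℚ) * ∏ v ∈ range n, (fC k v / fB a k v) = ∏ b ∈ range r, be n r a k b := by
  rw [← prod_blocks n r hr]
  unfold numPts
  push_cast
  rw [← Finset.prod_mul_distrib]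
  refine Finset.prod_congr rfl (fun b _ => ?_)
  unfold be
  ring

lemma numPts_pos (n r : ℕ) : 0 < numPts n r := by
  unfold numPts
  exact Finset.prod_pos (fun b _ => Nat.succ_pos _)

/-- The key inequality, in normalised form. -/
lemma key_ineq {n r a k : ℕ} (hk : k + r ≤ a) (hk' : r < n → k + r = a) (hr : 0 < r)
    (hrn : r ≤ n) (hn : n ≤ 3 * r) (hn2 : 2 ≤ n) (ha : 2 ≤ a) :
    ∏ v ∈ range n, (fA a k v / fB a k v) +
      ((numPts n r + 1) * numPts n r / 2 : ℚ) * ∏ v ∈ range n, (fC k v / fB a k v) <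
      numPts n r + 1 := by
  have hN : (0 : ℚ) < numPts n r := by exact_mod_cast numPts_pos n r
  have hbb := fun b (hb : b < r) => block_bound (b := b) hk hk' hb hrn hn
  have hPa := prod_al n r a k hr
  have hPb := prod_be n r a k hr
  have hQ : ((numPts n r + 1) * numPts n r / 2 : ℚ) * ∏ v ∈ range n, (fC k v / fB a k v) =
      (numPts n r + 1) / 2 * ∏ b ∈ range r, be n r a k b := by
    rw [← hPb]; ring
  have hal1 : ∀ b < r, al n r a k b ≤ 1 := fun b hb => by
    linarith [(hbb b hb).1, be_pos n r a k b]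
  by_cases hr3 : 3 ≤ r
  · -- at least three blocks
    obtain ⟨r', rfl⟩ : ∃ r', r = 3 + r' := ⟨r - 3, by omega⟩
    set N : ℚ := (numPts n (3 + r') : ℚ) with hNdef
    rw [hPa, hQ, Finset.prod_range_add, Finset.prod_range_add]
    have e1 : ∏ x ∈ range r', al n (3 + r') a k (3 + x) ≤ 1 :=
      Finset.prod_le_one (fun x _ => (al_pos _ _ _ _ _).le)
        (fun x hx => hal1 _ (by have := mem_range.mp hx; omega))
    have e2 : ∏ x ∈ range r', be n (3 + r') a k (3 + x) ≤ 1 :=
      Finset.prod_le_one (fun x _ => (be_pos _ _ _ _ _).le)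
        (fun x hx => (hbb _ (by have := mem_range.mp hx; omega)).2)
    have e1' : 0 ≤ ∏ x ∈ range r', al n (3 + r') a k (3 + x) :=
      Finset.prod_nonneg (fun x _ => (al_pos _ _ _ _ _).le)
    have e2' : 0 ≤ ∏ x ∈ range r', be n (3 + r') a k (3 + x) :=
      Finset.prod_nonneg (fun x _ => (be_pos _ _ _ _ _).le)
    simp only [Finset.prod_range_succ, Finset.prod_range_zero, one_mul]
    have h0 := hbb 0 (by omega)
    have h1 := hbb 1 (by omega)
    have h2 := hbb 2 (by omega)
    have p0 := be_pos n (3 + r') a k 0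
    have p1 := be_pos n (3 + r') a k 1
    have p2 := be_pos n (3 + r') a k 2
    have q0 := al_pos n (3 + r') a k 0
    have q1 := al_pos n (3 + r') a k 1
    have q2 := al_pos n (3 + r') a k 2
    set x0 := be n (3 + r') a k 0
    set x1 := be n (3 + r') a k 1
    set x2 := be n (3 + r') a k 2
    set y0 := al n (3 + r') a k 0
    set y1 := al n (3 + r') a k 1
    set y2 := al n (3 + r') a k 2
    have f1 : y0 * y1 * y2 ≤ (1 - x0 / 4) * (1 - x1 / 4) * (1 - x2 / 4) := by
      apply mul_le_mul (mul_le_mul h0.1 h1.1 q1.le (by linarith [h0.2])) h2.1 q2.le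
      exact mul_nonneg (by linarith [h0.2]) (by linarith [h1.2])
    have g1 : y0 * y1 * y2 * ∏ x ∈ range r', al n (3 + r') a k (3 + x) ≤ y0 * y1 * y2 :=
      mul_le_of_le_one_right (by positivity) e1
    have g2 : x0 * x1 * x2 * ∏ x ∈ range r', be n (3 + r') a k (3 + x) ≤ x0 * x1 * x2 :=
      mul_le_of_le_one_right (by positivity) e2
    have f2 : (1 - x0 / 4) * (1 - x1 / 4) * (1 - x2 / 4) + x0 * x1 * x2 / 2 < 1 := by
      have i01 : x0 * x1 ≤ x0 := mul_le_of_le_one_right p0.le h1.2
      have i02 : x0 * x2 ≤ x0 := mul_le_of_le_one_right p0.le h2.2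
      have i12 : x1 * x2 ≤ x1 := mul_le_of_le_one_right p1.le h2.2
      have i12' : x1 * x2 ≤ x2 := mul_le_of_le_one_left p2.le h1.2
      have i01' : x0 * x1 ≤ x1 := mul_le_of_le_one_left p1.le h0.2
      have i02' : x0 * x2 ≤ x2 := mul_le_of_le_one_left p2.le h0.2
      have j0 : x0 * x1 * x2 ≤ x0 * x1 := mul_le_of_le_one_right (by positivity) h2.2
      have j1 : x0 * x1 * x2 ≤ x1 * x2 := by
        have : x0 * (x1 * x2) ≤ x1 * x2 := mul_le_of_le_one_left (by positivity) h0.2
        linarith
      have j2 : x0 * x1 * x2 ≤ x0 * x2 := by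
        have : x1 * (x0 * x2) ≤ x0 * x2 := mul_le_of_le_one_left (by positivity) h1.2
        linarith
      nlinarith
    have hN1 : (1 : ℚ) ≤ N := by
      rw [hNdef]; exact_mod_cast numPts_pos n (3 + r')
    calc N * (y0 * y1 * y2 * ∏ x ∈ range r', al n (3 + r') a k (3 + x)) +
          (N + 1) / 2 * (x0 * x1 * x2 * ∏ x ∈ range r', be n (3 + r') a k (3 + x))
        ≤ N * (y0 * y1 * y2) + (N + 1) / 2 * (x0 * x1 * x2) := by
          apply add_le_add
          · exact mul_le_mul_of_nonneg_left g1 (by linarith)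
          · exact mul_le_mul_of_nonneg_left g2 (by linarith)
      _ ≤ (N + 1) * ((1 - x0 / 4) * (1 - x1 / 4) * (1 - x2 / 4)) + (N + 1) / 2 * (x0 * x1 * x2) := by
          have hy : 0 ≤ y0 * y1 * y2 := by positivity
          nlinarith
      _ = (N + 1) * ((1 - x0 / 4) * (1 - x1 / 4) * (1 - x2 / 4) + x0 * x1 * x2 / 2) := by ring
      _ < (N + 1) * 1 := mul_lt_mul_of_pos_left f2 (by linarith)
      _ = N + 1 := by ring
  · have hr12 : r = 1 ∨ r = 2 := by omega
    rcases hr12 with rfl | rfl
    · -- one block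
      have hn23 : n = 2 ∨ n = 3 := by omega
      have hka : k + 1 = a := hk' (by omega)
      have ha' : (a : ℚ) = k + 1 := by exact_mod_cast hka.symm
      have hk1 : (1 : ℚ) ≤ k := by
        have : 1 ≤ k := by omega
        exact_mod_cast this
      rcases hn23 with rfl | rfl
      · have hc : numPts 2 1 = 3 := by decide
        rw [hc]
        simp only [Finset.prod_range_succ, Finset.prod_range_zero, one_mul]
        unfold fA fB fC
        push_cast
        rw [ha']
        rw [div_mul_div_comm, div_mul_div_comm, ← mul_div_assoc, ← add_div, div_lt_iff₀ (by positivity)]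
        nlinarith
      · have hc : numPts 3 1 = 4 := by decide
        rw [hc]
        simp only [Finset.prod_range_succ, Finset.prod_range_zero, one_mul]
        unfold fA fB fC
        push_cast
        rw [ha']
        rw [div_mul_div_comm, div_mul_div_comm, div_mul_div_comm, div_mul_div_comm, ← mul_div_assoc,
          ← add_div, div_lt_iff₀ (by positivity)]
        nlinarith [mul_pos (lt_of_lt_of_le one_pos hk1) (lt_of_lt_of_le one_pos hk1)]
    · -- two blocks
      rw [hPa, hQ]
      simp only [Finset.prod_range_succ, Finset.prod_range_zero, one_mul]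
      have h0 := hbb 0 (by omega)
      have h1 := hbb 1 (by omega)
      have p0 := be_pos n 2 a k 0
      have p1 := be_pos n 2 a k 1
      have q0 := al_pos n 2 a k 0
      have q1 := al_pos n 2 a k 1
      have i01 : be n 2 a k 0 * be n 2 a k 1 ≤ be n 2 a k 0 := mul_le_of_le_one_right p0.le h1.2
      have i01' : be n 2 a k 0 * be n 2 a k 1 ≤ be n 2 a k 1 := mul_le_of_le_one_left p1.le h0.2
      by_cases hn4 : 4 ≤ n
      · have b0 : al n 2 a k 0 ≤ 1 - 5 * be n 2 a k 0 / 16 := by
          rcases blockOf_cases (n := n) (r := 2) (b := 0) (by omega) hrn hn with ⟨h, _⟩ | ⟨_, _, h⟩ | ⟨_, h⟩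
          · omega
          · have := (pair_bound (hk' (by omega)) (by omega) h).1
            linarith
          · exact (triple_bound (hk' (by omega)) (by omega) h).1
        have b1 : al n 2 a k 1 ≤ 1 - 5 * be n 2 a k 1 / 16 := by
          rcases blockOf_cases (n := n) (r := 2) (b := 1) (by omega) hrn hn with ⟨h, _⟩ | ⟨_, _, h⟩ | ⟨_, h⟩
          · omega
          · have := (pair_bound (hk' (by omega)) (by omega) h).1
            linarith
          · exact (triple_bound (hk' (by omega)) (by omega) h).1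
        set N : ℚ := (numPts n 2 : ℚ)
        set x0 := be n 2 a k 0
        set x1 := be n 2 a k 1
        set y0 := al n 2 a k 0
        set y1 := al n 2 a k 1
        have f1 : y0 * y1 ≤ (1 - 5 * x0 / 16) * (1 - 5 * x1 / 16) :=
          mul_le_mul b0 b1 q1.le (by linarith [h0.2])
        have f2 : (1 - 5 * x0 / 16) * (1 - 5 * x1 / 16) + x0 * x1 / 2 < 1 := by nlinarith
        calc N * (y0 * y1) + (N + 1) / 2 * (x0 * x1)
            ≤ (N + 1) * ((1 - 5 * x0 / 16) * (1 - 5 * x1 / 16)) + (N + 1) / 2 * (x0 * x1) := by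
              have hy : 0 ≤ y0 * y1 := by positivity
              nlinarith
          _ = (N + 1) * ((1 - 5 * x0 / 16) * (1 - 5 * x1 / 16) + x0 * x1 / 2) := by ring
          _ < (N + 1) * 1 := mul_lt_mul_of_pos_left f2 (by linarith)
          _ = N + 1 := by ring
      · have hn23 : n = 2 ∨ n = 3 := by omega
        rcases hn23 with rfl | rfl
        · have hc : numPts 2 2 = 4 := by decide
          rw [hc]
          set x0 := be 2 2 a k 0
          set x1 := be 2 2 a k 1
          set y0 := al 2 2 a k 0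
          set y1 := al 2 2 a k 1
          have f1 : y0 * y1 ≤ (1 - x0 / 4) * (1 - x1 / 4) :=
            mul_le_mul h0.1 h1.1 q1.le (by linarith [h0.2])
          push_cast
          nlinarith
        · have hc : numPts 3 2 = 6 := by decide
          have b0 : al 3 2 a k 0 ≤ 1 - be 3 2 a k 0 / 3 := by
            rcases blockOf_cases (n := 3) (r := 2) (b := 0) (by omega) hrn hn with ⟨h, _⟩ | ⟨_, _, h⟩ | ⟨h', h⟩
            · omega
            · exact (pair_bound (hk' (by omega)) (by omega) h).1
            · omega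
          rw [hc]
          set x0 := be 3 2 a k 0
          set x1 := be 3 2 a k 1
          set y0 := al 3 2 a k 0
          set y1 := al 3 2 a k 1
          have f1 : y0 * y1 ≤ (1 - x0 / 3) * (1 - x1 / 4) :=
            mul_le_mul b0 h1.1 q1.le (by linarith [h0.2])
          push_cast
          nlinarith

lemma choose_cast (m n : ℕ) :
    (n.factorial : ℚ) * ((m + n).choose n : ℕ) = ∏ v ∈ range n, ((m : ℚ) + 1 + v) := by
  have h1 := Nat.ascFactorial_eq_factorial_mul_choose m n
  have h2 := Nat.ascFactorial_eq_prod_range (m + 1) n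
  rw [h1] at h2
  have h3 := congrArg (fun x : ℕ => (x : ℚ)) h2
  push_cast at h3
  rw [h3]

/-- One point more than the special points makes the virtual dimension negative. -/
theorem neg_ineq {n r a k : ℕ} (hk : k + r ≤ a) (hk' : r < n → k + r = a) (hr : 0 < r)
    (hrn : r ≤ n) (hn : n ≤ 3 * r) (hn2 : 2 ≤ n) (ha : 2 ≤ a) :
    ((n + (k + a + a)).choose n : ℤ) - (numPts n r + 1 : ℕ) * (n + (k + a)).choose n +
      ((numPts n r + 1).choose 2) * (n + k).choose n < 0 := by
  have h := key_ineq hk hk' hr hrn hn hn2 ha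
  have hf : (0 : ℚ) < n.factorial := by exact_mod_cast Nat.factorial_pos n
  have hA : (n.factorial : ℚ) * ((n + (k + a + a)).choose n : ℕ) = ∏ v ∈ range n, fA a k v := by
    have := choose_cast (k + a + a) n
    rw [add_comm n (k + a + a), this]
    refine Finset.prod_congr rfl (fun v _ => ?_)
    unfold fA; push_cast; ring
  have hB : (n.factorial : ℚ) * ((n + (k + a)).choose n : ℕ) = ∏ v ∈ range n, fB a k v := by
    have := choose_cast (k + a) n
    rw [add_comm n (k + a), this]
    refine Finset.prod_congr rfl (fun v _ => ?_)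
    unfold fB; push_cast; ring
  have hC : (n.factorial : ℚ) * ((n + k).choose n : ℕ) = ∏ v ∈ range n, fC k v := by
    have := choose_cast k n
    rw [add_comm n k, this]
    refine Finset.prod_congr rfl (fun v _ => ?_)
    unfold fC; push_cast; ring
  have hBpos : 0 < ∏ v ∈ range n, fB a k v := Finset.prod_pos (fun v _ => fB_pos a k v)
  rw [Finset.prod_div_distrib, Finset.prod_div_distrib, ← mul_div_assoc, ← add_div,
    div_lt_iff₀ hBpos, ← hA, ← hB, ← hC] at h
  have h2 : (n.factorial : ℚ) * (((n + (k + a + a)).choose n : ℕ) +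
      ((numPts n r + 1) * numPts n r / 2) * ((n + k).choose n : ℕ)) <
      (n.factorial : ℚ) * ((numPts n r + 1) * ((n + (k + a)).choose n : ℕ)) := by
    calc _ = (n.factorial : ℚ) * ((n + (k + a + a)).choose n : ℕ) +
        ((numPts n r + 1) * numPts n r / 2) * ((n.factorial : ℚ) * ((n + k).choose n : ℕ)) := by ring
      _ < _ := h
      _ = _ := by ring
  have h3 := lt_of_mul_lt_mul_left h2 hf.le
  have hch : (((numPts n r + 1).choose 2 : ℕ) : ℚ) = (numPts n r + 1) * numPts n r / 2 := by
    rw [Nat.cast_choose_two]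
    push_cast
    ring_nf
  rw [← hch] at h3
  have h4 : (((n + (k + a + a)).choose n : ℤ) - (numPts n r + 1 : ℕ) * (n + (k + a)).choose n +
      ((numPts n r + 1).choose 2) * (n + k).choose n : ℚ) < 0 := by
    push_cast
    linarith
  exact_mod_cast h4

end Pool.Agent.Lib.MP_921642_ag
end
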