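import Pool.Agent.Lib.MP_921642_ag.Blocks
import Pool.Agent.Lib.MP_921642_ag.Numeric

/-!
The lower bound for the dimension of a linear system.
-/

set_option autoImplicit false

namespace Pool.Agent.Lib.MP_921642_ag

open MvPolynomial

variable {σ : Type} [Fintype σ]

/-- forms of degree `d` killed by `D_{p i}^a` for `i < j`. -/
noncomputable def K (p : ℕ → σ → ℂ) (a d j : ℕ) : Submodule ℂ (MvPolynomial σ ℂ) :=
  V σ d ⊓ ⨅ i : Fin j, LinearMap.ker ((Dl (p i)) ^ a)

omit [Fintype σ] in
lemma mem_K (p : ℕ → σ → ℂ) (a d j : ℕ) (f : MvPolynomial σ ℂ) :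
    f ∈ K p a d j ↔ f ∈ V σ d ∧ ∀ i < j, ((Dl (p i)) ^ a) f = 0 := by
  simp only [K, Submodule.mem_inf, Submodule.mem_iInf, LinearMap.mem_ker]
  constructor
  · rintro ⟨h1, h2⟩
    exact ⟨h1, fun i hi => h2 ⟨i, hi⟩⟩
  · rintro ⟨h1, h2⟩
    exact ⟨h1, fun i => h2 i.1 i.2⟩

omit [Fintype σ] in
lemma K_le_V (p : ℕ → σ → ℂ) (a d j : ℕ) : K p a d j ≤ V σ d := inf_le_left

instance K_finiteDimensional (p : ℕ → σ → ℂ) (a d j : ℕ) : FiniteDimensional ℂ (K p a d j) :=
  Submodule.finiteDimensional_of_le (K_le_V p a d j)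

/-- The evaluation map. -/
noncomputable def Phi (p : ℕ → σ → ℂ) (a d j : ℕ) : V σ d →ₗ[ℂ] (Fin j → MvPolynomial σ ℂ) :=
  LinearMap.pi (fun i : Fin j => ((Dl (p i)) ^ a) ∘ₗ (V σ d).subtype)

omit [Fintype σ] in
lemma Phi_apply (p : ℕ → σ → ℂ) (a d j : ℕ) (f : V σ d) (i : Fin j) :
    Phi p a d j f i = ((Dl (p i)) ^ a) (f : MvPolynomial σ ℂ) := rfl

lemma finrank_K_add (p : ℕ → σ → ℂ) (a d j : ℕ) :
    Module.finrank ℂ (LinearMap.range (Phi p a d j)) + Module.finrank ℂ (K p a d j) =
      Module.finrank ℂ (V σ d) := by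
  have h1 := LinearMap.finrank_range_add_finrank_ker (Phi p a d j)
  have h2 : Module.finrank ℂ (LinearMap.ker (Phi p a d j)) = Module.finrank ℂ (K p a d j) := by
    have h3 : K p a d j = Submodule.map (V σ d).subtype (LinearMap.ker (Phi p a d j)) := by
      ext f
      rw [mem_K, Submodule.mem_map]
      constructor
      · rintro ⟨h4, h5⟩
        refine ⟨⟨f, h4⟩, ?_, rfl⟩
        rw [LinearMap.mem_ker]
        funext i
        exact h5 i i.2
      · rintro ⟨g, hg, rfl⟩
        refine ⟨g.2, fun i hi => ?_⟩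
        rw [LinearMap.mem_ker] at hg
        exact congrFun hg ⟨i, hi⟩
    rw [h3]
    exact (Submodule.equivMapOfInjective _ (V σ d).injective_subtype _).finrank_eq
  omega

/-- Removing one more point. -/
lemma finrank_K_step (p : ℕ → σ → ℂ) (a e j : ℕ) :
    Module.finrank ℂ (K p a (e + a) j) ≤
      Module.finrank ℂ (K p a (e + a) (j + 1)) + Module.finrank ℂ (K p a e j) := by
  let T : K p a (e + a) j →ₗ[ℂ] MvPolynomial σ ℂ := ((Dl (p j)) ^ a) ∘ₗ (K p a (e + a) j).subtype
  have h1 := LinearMap.finrank_range_add_finrank_ker T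
  have h2 : LinearMap.range T ≤ K p a e j := by
    rintro _ ⟨f, rfl⟩
    have hf := (mem_K p a (e + a) j f.1).1 f.2
    rw [mem_K]
    refine ⟨Dl_pow_mem _ a hf.1, fun i hi => ?_⟩
    have hc : Commute ((Dl (p i)) ^ a) ((Dl (p j)) ^ a) := (Dl_commute (p i) (p j)).pow_pow a a
    have h3 : ((Dl (p i)) ^ a) (((Dl (p j)) ^ a) f.1) = ((Dl (p j)) ^ a) (((Dl (p i)) ^ a) f.1) := by
      rw [← Module.End.mul_apply, hc.eq, Module.End.mul_apply]
    change ((Dl (p i)) ^ a) (((Dl (p j)) ^ a) f.1) = 0
    rw [h3, hf.2 i hi, map_zero]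
  have h4 := Submodule.finrank_mono h2
  have h5 : Module.finrank ℂ (LinearMap.ker T) ≤ Module.finrank ℂ (K p a (e + a) (j + 1)) := by
    have h6 : Submodule.map (K p a (e + a) j).subtype (LinearMap.ker T) ≤ K p a (e + a) (j + 1) := by
      rintro _ ⟨f, hf, rfl⟩
      have hf' := (mem_K p a (e + a) j f.1).1 f.2
      rw [mem_K]
      refine ⟨hf'.1, fun i hi => ?_⟩
      rcases Nat.lt_succ_iff_lt_or_eq.mp hi with h | h
      · exact hf'.2 i h
      · subst h; exact hf
    have h7 := Submodule.finrank_mono h6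
    have h8 : Module.finrank ℂ (Submodule.map (K p a (e + a) j).subtype (LinearMap.ker T)) =
        Module.finrank ℂ (LinearMap.ker T) :=
      (Submodule.equivMapOfInjective _ (K p a (e + a) j).injective_subtype _).finrank_eq.symm
    omega
  omega

/-- The trivial count. -/
lemma finrank_K_trivial (p : ℕ → σ → ℂ) (a e s : ℕ) :
    (Module.finrank ℂ (V σ (e + a)) : ℤ) - s * Module.finrank ℂ (V σ e) ≤
      Module.finrank ℂ (K p a (e + a) s) := by
  induction s with
  | zero =>
    have h0 : K p a (e + a) 0 = V σ (e + a) := by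
      ext f; rw [mem_K]; simp
    rw [h0]; simp
  | succ s ih =>
    have h1 := finrank_K_step p a e s
    have h2 : Module.finrank ℂ (K p a e s) ≤ Module.finrank ℂ (V σ e) :=
      Submodule.finrank_mono (K_le_V p a e s)
    push_cast
    have h1' : (Module.finrank ℂ (K p a (e + a) s) : ℤ) ≤
      Module.finrank ℂ (K p a (e + a) (s + 1)) + Module.finrank ℂ (K p a e s) := by exact_mod_cast h1
    have h2' : (Module.finrank ℂ (K p a e s) : ℤ) ≤ Module.finrank ℂ (V σ e) := by exact_mod_cast h2
    linarith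

/-- The count with lines, if the points are good in degree `k + a`. -/
lemma finrank_K_lines (p : ℕ → σ → ℂ) (a k s : ℕ)
    (h : ∀ j < s, (Module.finrank ℂ (K p a (k + a) j) : ℤ) ≤
      Module.finrank ℂ (V σ (k + a)) - j * Module.finrank ℂ (V σ k)) :
    (Module.finrank ℂ (V σ (k + a + a)) : ℤ) - s * Module.finrank ℂ (V σ (k + a)) +
      (s.choose 2) * Module.finrank ℂ (V σ k) ≤ Module.finrank ℂ (K p a (k + a + a) s) := by
  induction s with
  | zero =>
    have h0 : K p a (k + a + a) 0 = V σ (k + a + a) := by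
      ext f; rw [mem_K]; simp
    rw [h0]; simp
  | succ s ih =>
    have ih' := ih (fun j hj => h j (by omega))
    have h1 := finrank_K_step p a (k + a) s
    have h2 := h s (by omega)
    have h1' : (Module.finrank ℂ (K p a (k + a + a) s) : ℤ) ≤
      Module.finrank ℂ (K p a (k + a + a) (s + 1)) + Module.finrank ℂ (K p a (k + a) s) := by
      exact_mod_cast h1
    have h3 : ((s + 1).choose 2 : ℤ) = s.choose 2 + s := by
      rw [Nat.choose_succ_succ' s 1]; push_cast; simp; ring
    rw [h3]
    push_cast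
    nlinarith

omit [Fintype σ] in
lemma Phi_poly (p q : ℕ → σ → ℂ) (a d j : ℕ) (t : ℂ) :
    Phi (fun i => p i + t • q i) a d j = ∑ m ∈ Finset.range (a + 1), t ^ m •
      (LinearMap.pi (fun i : Fin j =>
        (((a.choose m : ℕ) : ℂ) • ((Dl (q i)) ^ m * (Dl (p i)) ^ (a - m))) ∘ₗ (V σ d).subtype)) := by
  apply LinearMap.ext
  intro f
  funext i
  rw [Phi_apply, Dl_add_smul, add_comm (Dl (p i))]
  have hc : Commute (t • Dl (q i)) (Dl (p i)) := (Dl_commute (q i) (p i)).smul_left t
  rw [hc.add_pow]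
  simp only [LinearMap.sum_apply, Finset.sum_apply, LinearMap.smul_apply, Pi.smul_apply,
    LinearMap.pi_apply, LinearMap.comp_apply, Submodule.subtype_apply]
  refine Finset.sum_congr rfl (fun m _ => ?_)
  rw [smul_pow, smul_mul_assoc, smul_mul_assoc, LinearMap.smul_apply]
  congr 1
  rw [← nsmul_eq_mul', LinearMap.smul_apply, ← Nat.cast_smul_eq_nsmul ℂ]

/-- For all but finitely many `t` the space for `p + t q` is at most as large as that at `t0`. -/
lemma K_semicont (p q : ℕ → σ → ℂ) (a d j : ℕ) (t0 : ℂ) :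
    {t : ℂ | Module.finrank ℂ (K (fun i => p i + t0 • q i) a d j) <
      Module.finrank ℂ (K (fun i => p i + t • q i) a d j)}.Finite := by
  have h := rank_semicont (a + 1) _ (fun t => Phi (fun i => p i + t • q i) a d j)
    (fun t => Phi_poly p q a d j t) t0
  refine h.subset (fun t ht => ?_)
  have h1 := finrank_K_add (fun i => p i + t • q i) a d j
  have h2 := finrank_K_add (fun i => p i + t0 • q i) a d j
  have h3 : Module.finrank ℂ (K (fun i => p i + t0 • q i) a d j) <
      Module.finrank ℂ (K (fun i => p i + t • q i) a d j) := ht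
  change Module.finrank ℂ (LinearMap.range (Phi (fun i => p i + t • q i) a d j)) <
    Module.finrank ℂ (LinearMap.range (Phi (fun i => p i + t0 • q i) a d j))
  omega

/-- The special points impose independent conditions. -/
lemma K_special {ι : Type} [Fintype ι] {r : ℕ} (Q : QuadData σ ι r) (e : Fin (Fintype.card ι) ≃ ι)
    (a k : ℕ) (hak : k + r ≤ a) (q : ℕ → σ → ℂ) (hq : ∀ i : Fin (Fintype.card ι), q i = Q.P (e i))
    (j : ℕ) (hj : j ≤ Fintype.card ι) :
    (Module.finrank ℂ (K q a (k + a) j) : ℤ) ≤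
      Module.finrank ℂ (V σ (k + a)) - j * Module.finrank ℂ (V σ k) := by
  classical
  have h1 := finrank_K_add q a (k + a) j
  have h2 : Module.finrank ℂ (Fin j → V σ k) ≤
      Module.finrank ℂ (LinearMap.range (Phi q a (k + a) j)) := by
    let T : (Fin j → V σ k) →ₗ[ℂ] (Fin j → MvPolynomial σ ℂ) :=
      LinearMap.pi (fun i => (V σ k).subtype ∘ₗ LinearMap.proj i)
    have hT : Function.Injective T := by
      intro x y hxy
      funext i
      exact Subtype.ext (congrFun hxy i)
    have hle : LinearMap.range T ≤ LinearMap.range (Phi q a (k + a) j) := by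
      rintro _ ⟨w, rfl⟩
      let w' : ι → MvPolynomial σ ℂ := fun i =>
        if hi : ((e.symm i : Fin (Fintype.card ι)) : ℕ) < j then (w ⟨_, hi⟩ : MvPolynomial σ ℂ) else 0
      obtain ⟨u, hu, huD⟩ := Q.surj a k hak w' (by
        intro i
        simp only [w']
        split_ifs with hi
        · exact (w ⟨_, hi⟩).2
        · exact Submodule.zero_mem _)
      refine ⟨⟨u, hu⟩, ?_⟩
      funext i
      rw [Phi_apply]
      have hi : (i : ℕ) < Fintype.card ι := lt_of_lt_of_le i.2 hj
      have h3 := huD (e ⟨i, hi⟩)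
      have h4 := hq ⟨i, hi⟩
      simp only at h4
      rw [← h4] at h3
      rw [h3]
      simp only [w', Equiv.symm_apply_apply]
      rw [dif_pos i.2]
      rfl
    have h5 := Submodule.finrank_mono hle
    rw [LinearMap.finrank_range_of_inj hT] at h5
    exact h5
  rw [Module.finrank_pi_fintype] at h2
  simp only [Finset.sum_const, Finset.card_univ, Fintype.card_fin, smul_eq_mul] at h2
  have h2' : (j * Module.finrank ℂ (V σ k) : ℤ) ≤
      Module.finrank ℂ (LinearMap.range (Phi q a (k + a) j)) := by exact_mod_cast h2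
  have h1' : (Module.finrank ℂ (LinearMap.range (Phi q a (k + a) j)) : ℤ) +
    Module.finrank ℂ (K q a (k + a) j) = Module.finrank ℂ (V σ (k + a)) := by exact_mod_cast h1
  linarith

/-- Main lower bound: at most `|ι| + 1` points. -/
theorem lower_bound {ι : Type} [Fintype ι] {r : ℕ} (Q : QuadData σ ι r)
    (a k : ℕ) (hak : k + r ≤ a) (p : ℕ → σ → ℂ) (s : ℕ) (hs : s ≤ Fintype.card ι + 1) :
    (Module.finrank ℂ (V σ (k + a + a)) : ℤ) - s * Module.finrank ℂ (V σ (k + a)) +
      (s.choose 2) * Module.finrank ℂ (V σ k) ≤ Module.finrank ℂ (K p a (k + a + a) s) := by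
  classical
  let e : Fin (Fintype.card ι) ≃ ι := (Fintype.equivFin ι).symm
  let q : ℕ → σ → ℂ := fun i => if hi : i < Fintype.card ι then Q.P (e ⟨i, hi⟩) else 0
  have hq : ∀ i : Fin (Fintype.card ι), q i = Q.P (e i) := by
    intro i
    simp only [q]
    rw [dif_pos i.2]
  let dlt : ℕ → σ → ℂ := fun i => q i - p i
  -- bad values of the parameter
  have hA := K_semicont p dlt a (k + a + a) s 0
  have hB : ∀ j, {t : ℂ | Module.finrank ℂ (K (fun i => p i + (1 : ℂ) • dlt i) a (k + a) j) <
      Module.finrank ℂ (K (fun i => p i + t • dlt i) a (k + a) j)}.Finite :=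
    fun j => K_semicont p dlt a (k + a) j 1
  have hBu : (⋃ j ∈ (Finset.range s : Set ℕ), {t : ℂ |
      Module.finrank ℂ (K (fun i => p i + (1 : ℂ) • dlt i) a (k + a) j) <
      Module.finrank ℂ (K (fun i => p i + t • dlt i) a (k + a) j)}).Finite :=
    Set.Finite.biUnion (Finset.finite_toSet _) (fun j _ => hB j)
  obtain ⟨t, ht⟩ := (hA.union hBu).infinite_compl.nonempty
  rw [Set.mem_compl_iff, Set.mem_union, not_or] at ht
  obtain ⟨ht1, ht2⟩ := ht
  have h0 : (fun i => p i + (0 : ℂ) • dlt i) = p := by funext i; simp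
  have h1 : (fun i => p i + (1 : ℂ) • dlt i) = q := by funext i; simp [dlt]
  rw [h0] at ht1
  rw [h1] at ht2
  have h2 : Module.finrank ℂ (K (fun i => p i + t • dlt i) a (k + a + a) s) ≤
      Module.finrank ℂ (K p a (k + a + a) s) := by
    by_contra h; push Not at h; exact ht1 h
  have h3 : ∀ j < s, (Module.finrank ℂ (K (fun i => p i + t • dlt i) a (k + a) j) : ℤ) ≤
      Module.finrank ℂ (V σ (k + a)) - j * Module.finrank ℂ (V σ k) := by
    intro j hj
    have h4 : Module.finrank ℂ (K (fun i => p i + t • dlt i) a (k + a) j) ≤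
        Module.finrank ℂ (K q a (k + a) j) := by
      by_contra h
      push Not at h
      apply ht2
      simp only [Set.mem_iUnion]
      exact ⟨j, by simpa using hj, h⟩
    have h5 := K_special Q e a k hak q hq j (by omega)
    have h4' : (Module.finrank ℂ (K (fun i => p i + t • dlt i) a (k + a) j) : ℤ) ≤
        Module.finrank ℂ (K q a (k + a) j) := by exact_mod_cast h4
    linarith
  have h6 := finrank_K_lines (fun i => p i + t • dlt i) a k s h3
  have h2' : (Module.finrank ℂ (K (fun i => p i + t • dlt i) a (k + a + a) s) : ℤ) ≤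
      Module.finrank ℂ (K p a (k + a + a) s) := by exact_mod_cast h2
  linarith

end Pool.Agent.Lib.MP_921642_ag
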