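import Pool.Agent.Lib.MP_921642_ag.Defs
import Pool.Agent.Lib.MP_921642_ag.LowerBound
import Pool.Agent.Lib.MP_921642_ag.Numeric

/-!
Proof of the weak Froeberg-Iarrobino inequality in the range of lines.
-/

set_option autoImplicit false

namespace Pool.Agent.Lib.MP_921642_ag

open MvPolynomial

/-! ### Auxiliary lemmas -/


/-- A form of degree `d` killed by `D_p^a` vanishes to order `m` at `p` when `a + m = d + 1`. -/
lemma vanishes_of_Dl {n : ℕ} (p : Fin (n + 1) → ℂ) {a m d : ℕ} (ham : a + m = d + 1)
    {f : MvPolynomial (Fin (n + 1)) ℂ} (hf : f ∈ V (Fin (n + 1)) d) (h : ((Dl p) ^ a) f = 0) :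
    VanishesToOrder p m f := by
  intro β hβ
  have h1 : ∀ i, (S p f).coeff i ≠ 0 → i < a := by
    intro i hi
    by_contra hia
    apply hi
    apply coeff_S_eq_zero
    obtain ⟨j, rfl⟩ : ∃ j, i = j + a := ⟨i - a, by omega⟩
    rw [pow_add, Module.End.mul_apply, h, map_zero]
  have h2 : aeval (fun i => X i + C (p i)) f =
      (Polynomial.aeval (1 : MvPolynomial (Fin (n + 1)) ℂ)) (S p f) := by
    have : ((Polynomial.aeval (1 : MvPolynomial (Fin (n + 1)) ℂ)).restrictScalars ℂ).comp (S p) =
        aeval (fun i => X i + C (p i)) := by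
      apply MvPolynomial.algHom_ext
      intro i
      simp
    rw [← this]; rfl
  rw [h2, Polynomial.aeval_eq_sum_range]
  simp only [one_pow, smul_eq_mul, mul_one]
  rw [coeff_sum]
  refine Finset.sum_eq_zero (fun i _ => ?_)
  by_cases hi : (S p f).coeff i = 0
  · rw [hi, coeff_zero]
  · have hia := h1 i hi
    have hmem : (S p f).coeff i ∈ V (Fin (n + 1)) (d - i) := by
      have h3 := coeff_S p f i
      have h4 : ((Dl p) ^ i) f ∈ V (Fin (n + 1)) (d - i) := by
        apply Dl_pow_mem
        have : d - i + i = d := by omega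
        rw [this]; exact hf
      have h5 : ((Nat.factorial i : ℕ) : ℂ) ≠ 0 := by exact_mod_cast Nat.factorial_ne_zero i
      have h6 : (S p f).coeff i = ((Nat.factorial i : ℕ) : ℂ)⁻¹ • ((Dl p) ^ i) f := by
        rw [← h3]
        have h7 : ((Nat.factorial i : ℕ) : MvPolynomial (Fin (n + 1)) ℂ) * (S p f).coeff i =
            ((Nat.factorial i : ℕ) : ℂ) • (S p f).coeff i := by
          rw [smul_eq_C_mul]; simp
        rw [h7, smul_smul, inv_mul_cancel₀ h5, one_smul]
      rw [h6]
      exact Submodule.smul_mem _ _ h4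
    apply ((mem_homogeneousSubmodule _ _).1 hmem).coeff_eq_zero
    omega

/-- The sum over subsets when the multiplicities are all equal. -/
lemma lvdim_const (n d s m : ℕ) (hm : m ≤ d) (h3 : 3 * m < 2 * d + 3) (hn : 1 ≤ n) :
    lvdim n d s (fun _ => m) = ((n + d).choose n : ℤ) - s * (n + m - 1).choose n +
      (if 2 ≤ n then ((s.choose 2 : ℕ) : ℤ) * (n + (2 * m - d) - 2).choose n else 0) := by
  classical
  let f : ℕ → ℤ := fun j => if j ≤ n then
    (-1) ^ j * ((n + (if j = 0 then d else j * m - (j - 1) * d) - j).choose n : ℤ) else 0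
  have h1 : lvdim n d s (fun _ => m) = ∑ I ∈ (Finset.univ : Finset (Fin s)).powerset, f I.card := by
    unfold lvdim
    rw [Finset.sum_filter]
    refine Finset.sum_congr rfl (fun I _ => ?_)
    have hI : I.card ≤ s := by simpa using Finset.card_le_univ I
    by_cases hIn : I.card ≤ n
    · rw [if_pos (le_min hIn hI)]
      simp only [f, if_pos hIn]
      congr 3
      unfold kI
      by_cases hI0 : I = ∅
      · subst hI0; simp
      · have : I.card ≠ 0 := by rwa [Ne, Finset.card_eq_zero]
        rw [if_neg hI0, if_neg this]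
        simp
    · rw [if_neg (fun h => hIn (le_trans h (min_le_left _ _)))]
      simp only [f, if_neg hIn]
  have hf3 : ∀ j, 3 ≤ j → f j = 0 := by
    intro j hj
    simp only [f]
    split_ifs with h1 h2
    · omega
    · have : (n + (j * m - (j - 1) * d) - j).choose n = 0 := by
        apply Nat.choose_eq_zero_of_lt
        obtain ⟨i, rfl⟩ : ∃ i, j = i + 3 := ⟨j - 3, by omega⟩
        have e1 : (i + 3) * m ≤ (i + 2) * d + (i + 2) := by nlinarith
        have e2 : (i + 3 - 1) * d = (i + 2) * d := by congr 1
        rw [e2]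
        omega
      rw [this]; simp
    · rfl
  rw [h1, Finset.sum_powerset_apply_card, Finset.card_univ, Fintype.card_fin]
  have h4 : ∑ j ∈ Finset.range (s + 1), s.choose j • f j = ∑ j ∈ Finset.range 3, s.choose j • f j := by
    rcases Nat.lt_or_ge 2 s with h | h
    · symm
      apply Finset.sum_subset
      · intro j hj; simp only [Finset.mem_range] at hj ⊢; omega
      · intro j _ hj
        simp only [Finset.mem_range, not_lt] at hj
        rw [hf3 j hj, smul_zero]
    · apply Finset.sum_subset
      · intro j hj; simp only [Finset.mem_range] at hj ⊢; omega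
      · intro j _ hj
        simp only [Finset.mem_range, not_lt] at hj
        rw [Nat.choose_eq_zero_of_lt (by omega), zero_smul]
  rw [h4]
  simp only [Finset.sum_range_succ, Finset.sum_range_zero, f]
  have e3 : n + m - 1 = n + (1 * m - (1 - 1) * d) - 1 := by simp
  by_cases hn2 : 2 ≤ n
  · simp only [hn, hn2, if_true, Nat.zero_le, nsmul_eq_mul, Nat.choose_zero_right, Nat.choose_one_right]
    simp
    ring
  · have hn1 : n = 1 := by omega
    subst hn1
    simp
    ring

/-- Adding points with multiplicity zero does not change the linear virtual dimension. -/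
lemma lvdim_extend (n d s s' : ℕ) (hs : s' ≤ s) (m : Fin s' → ℕ) (hm : ∀ i, m i ≤ d) :
    lvdim n d s (fun i => if h : (i : ℕ) < s' then m ⟨i, h⟩ else 0) = lvdim n d s' m := by
  classical
  set M : Fin s → ℕ := fun i => if h : (i : ℕ) < s' then m ⟨i, h⟩ else 0 with hM
  have hMd : ∀ i, M i ≤ d := by
    intro i
    simp only [hM]
    split_ifs
    · exact hm _
    · exact Nat.zero_le _
  let emb : Fin s' ↪ Fin s := Fin.castLEEmb hs
  have hcard : ∀ (t : ℕ) (I : Finset (Fin t)), I.card ≤ min n t ↔ I.card ≤ n := by
    intro t I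
    have hI : I.card ≤ t := by simpa using Finset.card_le_univ I
    constructor
    · intro h; exact le_trans h (min_le_left _ _)
    · intro h; exact le_min h hI
  unfold lvdim
  simp only [hcard]
  have h1 : ∑ I ∈ (Finset.univ : Finset (Fin s')).powerset.filter (fun I => I.card ≤ n),
      (-1 : ℤ) ^ I.card * ((n + kI d m I - I.card).choose n : ℤ) =
      ∑ I ∈ ((Finset.univ : Finset (Fin s')).powerset.filter (fun I => I.card ≤ n)).image
        (fun I => I.map emb), (-1 : ℤ) ^ I.card * ((n + kI d M I - I.card).choose n : ℤ) := by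
    rw [Finset.sum_image]
    · refine Finset.sum_congr rfl (fun I _ => ?_)
      rw [Finset.card_map]
      congr 3
      have hsum : ∑ x ∈ I, M (emb x) = ∑ x ∈ I, m x := by
        refine Finset.sum_congr rfl (fun i _ => ?_)
        simp [hM, emb]
      unfold kI
      simp only [Finset.map_eq_empty, Finset.card_map, Finset.sum_map, hsum]
    · intro I _ J _ hIJ
      exact Finset.map_injective emb hIJ
  rw [h1]
  symm
  apply Finset.sum_subset
  · intro I hI
    simp only [Finset.mem_image, Finset.mem_filter] at hI ⊢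
    obtain ⟨J, ⟨_, hJ⟩, rfl⟩ := hI
    exact ⟨by simp, by rwa [Finset.card_map]⟩
  · intro I hI hI'
    simp only [Finset.mem_filter] at hI
    -- `I` contains an index outside the image
    have hex : ∃ i ∈ I, ¬ ((i : ℕ) < s') := by
      by_contra hno
      push Not at hno
      apply hI'
      simp only [Finset.mem_image, Finset.mem_filter]
      refine ⟨I.preimage emb (emb.injective.injOn), ⟨by simp, ?_⟩, ?_⟩
      · refine le_trans ?_ hI.2
        rw [← Finset.card_map emb]
        apply Finset.card_le_card
        intro x hx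
        simp only [Finset.mem_map, Finset.mem_preimage] at hx
        obtain ⟨y, hy, rfl⟩ := hx
        exact hy
      · ext x
        simp only [Finset.mem_map, Finset.mem_preimage]
        constructor
        · rintro ⟨y, hy, rfl⟩; exact hy
        · intro hx
          have hx' : emb ⟨x, hno x hx⟩ = x := Fin.ext rfl
          exact ⟨⟨x, hno x hx⟩, by rw [hx']; exact hx, hx'⟩
    obtain ⟨i, hi, hi'⟩ := hex
    have hIne : I ≠ ∅ := Finset.ne_empty_of_mem hi
    have hk : kI d M I = 0 := by
      unfold kI
      rw [if_neg hIne]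
      have h2 : ∑ j ∈ I, M j ≤ (I.card - 1) * d := by
        rw [← Finset.add_sum_erase I M hi]
        have h3 : M i = 0 := by simp only [hM]; rw [dif_neg hi']
        rw [h3, zero_add, ← Finset.card_erase_of_mem hi]
        refine le_trans (Finset.sum_le_card_nsmul _ _ d (fun j _ => hMd j)) ?_
        simp
      omega
    rw [hk]
    have hIc : 1 ≤ I.card := Finset.card_pos.mpr ⟨i, hi⟩
    have : (n + 0 - I.card).choose n = 0 := by
      have : I.card ≤ n := hI.2
      apply Nat.choose_eq_zero_of_lt
      omega
    rw [this]; simp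

lemma linSys_le (n d s : ℕ) (m : Fin s → ℕ) (p : Fin s → Fin (n + 1) → ℂ) :
    linSys n d s m p ≤ V (Fin (n + 1)) d := fun _ hf => hf.1

instance (n d s : ℕ) (m : Fin s → ℕ) (p : Fin s → Fin (n + 1) → ℂ) :
    FiniteDimensional ℂ (linSys n d s m p) :=
  Submodule.finiteDimensional_of_le (linSys_le n d s m p)

/-- extension of a finite family of points to all indices -/
def extPts {n s : ℕ} (p : Fin s → Fin (n + 1) → ℂ) : ℕ → Fin (n + 1) → ℂ :=
  fun i => if h : i < s then p ⟨i, h⟩ else 0

lemma finrank_K_le {n d m s a : ℕ} (ham : a + m = d + 1) (p : Fin s → Fin (n + 1) → ℂ) :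
    (Module.finrank ℂ (K (extPts p) a d s) : ℤ) ≤ Module.finrank ℂ (linSys n d s (fun _ => m) p) := by
  have h : K (extPts p) a d s ≤ linSys n d s (fun _ => m) p := by
    intro f hf
    rw [mem_K] at hf
    refine ⟨hf.1, fun i => ?_⟩
    have h1 := hf.2 i i.2
    simp only [extPts, i.2, dif_pos] at h1
    exact vanishes_of_Dl (p i) ham hf.1 h1
  exact_mod_cast Submodule.finrank_mono h

lemma finrank_V' (n e : ℕ) : Module.finrank ℂ (V (Fin (n + 1)) e) = (n + e).choose n := by
  rw [finrank_V, Fintype.card_fin]
  have : n + 1 + e - 1 = n + e := by omega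
  rw [this, Nat.choose_symm_add]

/-- the partition into residue classes -/
def blk (n r : ℕ) (hr : 0 < r) : Fin n → Fin r := fun v => ⟨v % r, Nat.mod_lt _ hr⟩

lemma card_choice_blk (n r : ℕ) (hr : 0 < r) : Fintype.card (Choice (blk n r hr)) = numPts n r := by
  rw [card_choice, numPts, Finset.prod_range]
  refine Finset.prod_congr rfl (fun b _ => ?_)
  congr 1
  have h : blockOf n r b = (Finset.univ.filter (fun v : Fin n => blk n r hr v = b)).image Fin.val := by
    ext v
    simp only [blockOf, Finset.mem_filter, Finset.mem_range, Finset.mem_image, Finset.mem_univ,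
      true_and, blk, Fin.ext_iff]
    constructor
    · rintro ⟨h1, h2⟩; exact ⟨⟨v, h1⟩, h2, rfl⟩
    · rintro ⟨w, h1, h2⟩; subst h2; exact ⟨w.2, h1⟩
  rw [h, Finset.card_image_of_injective _ Fin.val_injective]

lemma ldim_le_of_le {n d s : ℕ} {m : Fin s → ℕ} {x : ℤ} (hx : 0 ≤ x) (h : lvdim n d s m ≤ x) :
    ldim n d s m ≤ x := by
  unfold ldim
  split_ifs
  · exact hx
  · exact max_le h hx

lemma ldim_le_of_neg {n d s : ℕ} {m : Fin s → ℕ} {x : ℤ} (hx : 0 ≤ x)
    (h : ∃ m' : Fin s → ℕ, (∀ i, m' i ≤ m i) ∧ lvdim n d s m' < 0) :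
    ldim n d s m ≤ x := by
  unfold ldim
  rw [if_pos h]
  exact hx

/-- The weak Froeberg-Iarrobino inequality `dim L ≥ ldim L` for `L = L_{n,d}(m^s)`, for arbitrary
(in particular for general) points and for every number `s` of points, whenever
`9 m + n ≤ 6 d + 9`. -/
theorem main_two_thirds (n d m s : ℕ) (hn : 1 ≤ n) (hm : 1 ≤ m) (h : 9 * m + n ≤ 6 * d + 9)
    (p : Fin s → Fin (n + 1) → ℂ) :
    ldim n d s (fun _ => m) ≤ (Module.finrank ℂ (linSys n d s (fun _ => m) p) : ℤ) := by
  have hx : (0 : ℤ) ≤ Module.finrank ℂ (linSys n d s (fun _ => m) p) := by positivity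
  have hmd : m ≤ d := by omega
  have h3 : 3 * m < 2 * d + 3 := by omega
  obtain ⟨a, ha⟩ : ∃ a, a + m = d + 1 := ⟨d + 1 - m, by omega⟩
  have hK := finrank_K_le (n := n) (s := s) ha p
  have hlv := lvdim_const n d s m hmd h3 hn
  -- the trivial range
  by_cases htriv : ¬ 2 ≤ n ∨ 2 * m ≤ d + 1
  · apply ldim_le_of_le hx
    have h0 : lvdim n d s (fun _ => m) = ((n + d).choose n : ℤ) - s * (n + m - 1).choose n := by
      rw [hlv]
      rcases htriv with h1 | h1
      · rw [if_neg h1, add_zero]
      · by_cases h2 : 2 ≤ n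
        · rw [if_pos h2, Nat.choose_eq_zero_of_lt (show n + (2 * m - d) - 2 < n by omega)]
          simp
        · rw [if_neg h2, add_zero]
    have h1 := finrank_K_trivial (extPts p) a (m - 1) s
    have e1 : m - 1 + a = d := by omega
    rw [e1, finrank_V', finrank_V'] at h1
    have e2 : n + m - 1 = n + (m - 1) := by omega
    rw [h0, e2]
    linarith
  · push Not at htriv
    obtain ⟨hn2, hlines⟩ := htriv
    obtain ⟨k, hk⟩ : ∃ k, k + d + 2 = 2 * m := ⟨2 * m - d - 2, by omega⟩
    have hd : k + a + a = d := by omega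
    have hka : k + a = m - 1 := by omega
    rw [if_pos hn2] at hlv
    have e2 : n + (2 * m - d) - 2 = n + k := by omega
    have e3 : n + m - 1 = n + (k + a) := by omega
    rw [e2, e3, ← hd] at hlv
    obtain ⟨r, hr⟩ : ∃ r, k + r = a := ⟨a - k, by omega⟩
    have hn3r : n ≤ 3 * r := by omega
    -- number of blocks
    obtain ⟨r', hr'1, hr'2, hr'3, hr'4, hr'5⟩ : ∃ r', 0 < r' ∧ r' ≤ n ∧ k + r' ≤ a ∧
        (r' < n → k + r' = a) ∧ n ≤ 3 * r' := by
      rcases Nat.lt_or_ge n r with h1 | h1
      · exact ⟨n, by omega, le_rfl, by omega, by omega, by omega⟩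
      · exact ⟨r, by omega, h1, by omega, by omega, hn3r⟩
    have hcard := card_choice_blk n r' hr'1
    rcases Nat.lt_or_ge (numPts n r' + 1) s with hs | hs
    · -- many points: a subsystem has negative virtual dimension
      apply ldim_le_of_neg hx
      by_cases ha2 : 2 ≤ a
      · refine ⟨fun i => if hi : (i : ℕ) < numPts n r' + 1 then (fun _ => m) (⟨i, hi⟩ :
          Fin (numPts n r' + 1)) else 0, ?_, ?_⟩
        · intro i
          simp only
          split_ifs
          · exact le_rfl
          · exact Nat.zero_le _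
        · rw [lvdim_extend n d s (numPts n r' + 1) hs.le (fun _ => m) (fun _ => hmd),
            lvdim_const n d (numPts n r' + 1) m hmd h3 hn, if_pos hn2, e2, e3, ← hd]
          have := neg_ineq (n := n) (r := r') (a := a) (k := k) hr'3 hr'4 hr'1 hr'2 hr'5 hn2 ha2
          exact this
      · -- the case d = m = 2
        have ha1 : a = 1 := by omega
        have hk0 : k = 0 := by omega
        have hm2 : m = 2 := by omega
        have hd2 : d = 2 := by omega
        have hr1 : r' = 1 := by omega
        subst hm2 hd2 hr1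
        have hn23 : n = 2 ∨ n = 3 := by omega
        rcases hn23 with rfl | rfl
        · have hN : numPts 2 1 = 3 := by decide
          refine ⟨fun i => if hi : (i : ℕ) < 4 then (![2, 2, 2, 1] : Fin 4 → ℕ) ⟨i, hi⟩ else 0,
            ?_, ?_⟩
          · intro i
            simp only
            split_ifs with hi
            · generalize (⟨(i : ℕ), hi⟩ : Fin 4) = j
              revert j; decide
            · exact Nat.zero_le _
          · rw [lvdim_extend 2 2 s 4 (by omega) ![2, 2, 2, 1] (by decide)]
            decide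
        · have hN : numPts 3 1 = 4 := by decide
          refine ⟨fun i => if hi : (i : ℕ) < 5 then (![2, 2, 2, 2, 1] : Fin 5 → ℕ) ⟨i, hi⟩ else 0,
            ?_, ?_⟩
          · intro i
            simp only
            split_ifs with hi
            · generalize (⟨(i : ℕ), hi⟩ : Fin 5) = j
              revert j; decide
            · exact Nat.zero_le _
          · rw [lvdim_extend 3 2 s 5 (by omega) ![2, 2, 2, 2, 1] (by decide)]
            decide
    · -- few points: the lower bound
      apply ldim_le_of_le hx
      have hlb := lower_bound (blockData (blk n r' hr'1)) a k hr'3 (extPts p) s (by rw [hcard]; omega)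
      rw [finrank_V', finrank_V', finrank_V'] at hlb
      rw [hd] at hlb hlv
      rw [hlv]
      linarith

end Pool.Agent.Lib.MP_921642_ag
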